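import Pool.Agent.Lib_MP_70e04f_hal.Defs

/-!
# The parameters (piece ANG)

PAPER PROOF. Let `φ t = π (t + 1) / (45 ν)` for `t : Fin 9`, so `0 < φ t < π`, `sin (φ t) > 0`, and
`s t = - cos (φ t) / sin (φ t)`. Then `I - s t = (sin (φ t))⁻¹ * exp (I φ t)`, hence
`aeval I (lin s a) = (∏ t, (sin (φ t))⁻¹ ^ a t) * exp (I * ∑ t, a t * φ t)` and
`nv (lin s a) = (∏ t, (sin (φ t))⁻¹ ^ a t) * sin (∑ t, a t * φ t)`. The first factor is positive. If
`a t ≤ ν` then `θ = ∑ t, a t * φ t = (π / (45 ν)) * ∑ t, a t (t + 1)` is in `[0, π]` because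
`∑ t, (t + 1) = 45`; `sin θ = 0` only for `θ = 0` (all `a t = 0`) or `θ = π` (all `a t = ν`), see
`Real.sin_pos_of_pos_of_lt_pi`. For `a = ν` one has `θ = π`. `s` is injective: if `s t = s t'` then
`sin (φ t - φ t') = 0` (or: `cos / sin` is strictly decreasing on `(0, π)`; `Real.cot` or the
addition formula `sin (x - y) = sin x cos y - cos x sin y` and `|φ t - φ t'| < π`).
-/

namespace Pool.MP_70e04f_ag.Hal

open MvPolynomial Pool.MP_70e04f_ag.Hex Pool.MP_70e04f_ag.Add Pool.MP_70e04f_ag.Nine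

/-- The value of `nv` on a product of linear forms, in trigonometric form. -/
theorem ang_nv_lin (φ : Fin 9 → ℝ) (hs : ∀ t, 0 < Real.sin (φ t)) (a : Fin 9 → ℕ) :
    nv (lin (fun t => - Real.cos (φ t) / Real.sin (φ t)) a) =
      (∏ t, ((Real.sin (φ t))⁻¹) ^ a t) * Real.sin (∑ t, (a t : ℝ) * φ t) := by
  unfold nv lin
  have h1 : ∀ t, (Polynomial.aeval Complex.I)
      ((Polynomial.X - Polynomial.C (- Real.cos (φ t) / Real.sin (φ t))) ^ a t) =
      ((((Real.sin (φ t))⁻¹) ^ a t : ℝ) : ℂ) *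
        Complex.exp (((a t : ℝ) * φ t : ℝ) * Complex.I) := by
    intro t
    rw [map_pow, map_sub, Polynomial.aeval_X, Polynomial.aeval_C]
    have h2 : Complex.I - algebraMap ℝ ℂ (- Real.cos (φ t) / Real.sin (φ t)) =
        (((Real.sin (φ t))⁻¹ : ℝ) : ℂ) * Complex.exp ((φ t : ℝ) * Complex.I) := by
      have hne : ((Real.sin (φ t) : ℝ) : ℂ) ≠ 0 := by
        exact_mod_cast (hs t).ne'
      rw [Complex.exp_mul_I, ← Complex.ofReal_cos, ← Complex.ofReal_sin]
      show Complex.I - ((- Real.cos (φ t) / Real.sin (φ t) : ℝ) : ℂ) = _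
      rw [Complex.ofReal_div, Complex.ofReal_neg, Complex.ofReal_inv, mul_add, ← mul_assoc,
        inv_mul_cancel₀ hne, one_mul, neg_div, sub_neg_eq_add, div_eq_inv_mul, add_comm]
    rw [h2, mul_pow, Complex.ofReal_pow, ← Complex.exp_nat_mul]
    congr 2
    push_cast
    ring
  rw [map_prod, Finset.prod_congr rfl (fun t _ => h1 t), Finset.prod_mul_distrib,
    ← Complex.exp_sum, ← Complex.ofReal_prod, ← Finset.sum_mul, ← Complex.ofReal_sum,
    Complex.im_ofReal_mul, Complex.exp_ofReal_mul_I_im]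

/-- Nine points in the position of a Halphen pencil of index `ν`. -/
theorem exists_tors (ν : ℕ) (hν : 1 ≤ ν) : ∃ s : Fin 9 → ℝ, Tors ν s := by
  have hν0 : (0 : ℝ) < ν := by exact_mod_cast hν
  have hπ := Real.pi_pos
  let φ : Fin 9 → ℝ := fun t => Real.pi * ((t : ℕ) + 1) / (45 * ν)
  have hφ : ∀ t, φ t = Real.pi * ((t : ℕ) + 1) / (45 * ν) := fun t => rfl
  have hpos : ∀ t, 0 < φ t := by
    intro t
    rw [hφ]
    positivity
  have hlt : ∀ t, φ t < Real.pi := by
    intro t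
    rw [hφ, div_lt_iff₀ (by positivity)]
    have h1 : ((t : ℕ) : ℝ) + 1 ≤ 9 := by
      have := t.2
      exact_mod_cast (by omega : (t : ℕ) + 1 ≤ 9)
    have h2 : (1 : ℝ) ≤ ν := by exact_mod_cast hν
    have h3 : ((t : ℕ) : ℝ) + 1 < 45 * ν := by linarith
    exact mul_lt_mul_of_pos_left h3 hπ
  have hsin : ∀ t, 0 < Real.sin (φ t) := fun t => Real.sin_pos_of_pos_of_lt_pi (hpos t) (hlt t)
  have hsum : ∑ t, (ν : ℝ) * φ t = Real.pi := by
    have h1 : ∀ t, (ν : ℝ) * φ t = (Real.pi / 45) * (((t : ℕ) : ℝ) + 1) := by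
      intro t
      rw [hφ]
      field_simp
    rw [Finset.sum_congr rfl (fun t _ => h1 t), ← Finset.mul_sum]
    have h2 : ∑ t : Fin 9, (((t : ℕ) : ℝ) + 1) = 45 := by
      simp only [Fin.sum_univ_succ, Fin.sum_univ_zero, Fin.val_zero, Fin.val_succ]
      norm_num
    rw [h2]
    field_simp
  have hprod : ∀ a : Fin 9 → ℕ, 0 < ∏ t, ((Real.sin (φ t))⁻¹) ^ a t := by
    intro a
    exact Finset.prod_pos fun t _ => pow_pos (inv_pos.2 (hsin t)) _
  refine ⟨fun t => - Real.cos (φ t) / Real.sin (φ t), ⟨?_, ?_, ?_⟩⟩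
  · intro t t' h
    have h : - Real.cos (φ t) / Real.sin (φ t) = - Real.cos (φ t') / Real.sin (φ t') := h
    rw [div_eq_div_iff (hsin t).ne' (hsin t').ne'] at h
    have h1 : Real.sin (φ t - φ t') = 0 := by
      rw [Real.sin_sub]
      linarith
    have h2 : φ t - φ t' = 0 := by
      rw [Real.sin_eq_zero_iff_of_lt_of_lt] at h1
      · exact h1
      · linarith [hpos t, hlt t']
      · linarith [hpos t', hlt t]
    have h3 : φ t = φ t' := by linarith
    rw [hφ, hφ, div_left_inj' (by positivity)] at h3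
    have h4 : ((t : ℕ) : ℝ) + 1 = ((t' : ℕ) : ℝ) + 1 := mul_left_cancel₀ hπ.ne' h3
    have h5 : (t : ℕ) = (t' : ℕ) := by
      have : ((t : ℕ) : ℝ) = ((t' : ℕ) : ℝ) := by linarith
      exact_mod_cast this
    exact Fin.ext h5
  · rw [ang_nv_lin φ hsin, hsum, Real.sin_pi, mul_zero]
  · intro a ha h
    rw [ang_nv_lin φ hsin, mul_eq_zero] at h
    have h0 : Real.sin (∑ t, (a t : ℝ) * φ t) = 0 := by
      rcases h with h | h
      · exact ((hprod a).ne' h).elim
      · exact h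
    have hnn : ∀ t, 0 ≤ (a t : ℝ) * φ t := fun t => mul_nonneg (Nat.cast_nonneg _) (hpos t).le
    have hle : ∀ t, (a t : ℝ) * φ t ≤ (ν : ℝ) * φ t := fun t =>
      mul_le_mul_of_nonneg_right (by exact_mod_cast ha t) (hpos t).le
    have hθ0 : 0 ≤ ∑ t, (a t : ℝ) * φ t := Finset.sum_nonneg fun t _ => hnn t
    have hθ1 : ∑ t, (a t : ℝ) * φ t ≤ Real.pi := by
      rw [← hsum]
      exact Finset.sum_le_sum fun t _ => hle t
    rcases hθ0.eq_or_lt with h1 | h1
    · left
      intro t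
      have h2 := (Finset.sum_eq_zero_iff_of_nonneg (fun t _ => hnn t)).1 h1.symm t
        (Finset.mem_univ t)
      rcases mul_eq_zero.1 h2 with h3 | h3
      · exact_mod_cast h3
      · exact ((hpos t).ne' h3).elim
    · rcases hθ1.eq_or_lt with h2 | h2
      · right
        intro t
        have h3 : ∑ t, ((ν : ℝ) * φ t - (a t : ℝ) * φ t) = 0 := by
          rw [Finset.sum_sub_distrib, hsum, h2, sub_self]
        have h4 := (Finset.sum_eq_zero_iff_of_nonneg (fun t _ => by
          have := hle t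
          linarith)).1 h3 t (Finset.mem_univ t)
        have h5 : ((ν : ℝ) - a t) * φ t = 0 := by
          rw [sub_mul]
          exact h4
        rcases mul_eq_zero.1 h5 with h6 | h6
        · have h7 : (a t : ℝ) = ν := by linarith
          exact_mod_cast h7
        · exact ((hpos t).ne' h6).elim
      · exact ((Real.sin_pos_of_pos_of_lt_pi h1 h2).ne' h0).elim

end Pool.MP_70e04f_ag.Hal
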