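import Pool.Agent.Lib_MP_70e04f_nine.Final

/-!
# Nine points of order `ν` on an acnodal cubic: definitions

`ncu` is the equation of the acnodal cubic `y ^ 2 = x ^ 2 (x - 1)`, parametrised by
`(S ^ 2 + 1, S (S ^ 2 + 1))`; the node `(0, 0)` is the image of `S = i` and of `S = - i`. `nod` is
the restriction of polynomials to the curve, `nv P` is the imaginary part of `P (i)`; it vanishes
for all restrictions (`nv_nod` in `NodA`). `Tors ν s` says that the nine points with parameters
`s t` are in the position of a Halphen pencil of index `ν`: the divisor `ν ∑ q t` is cut out by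
curves of degree `3 ν`, and no smaller combination `∑ a t q t`, `a t ≤ ν`, satisfies the condition
at the node.
-/

namespace Pool.MP_70e04f_ag.Hal

open MvPolynomial Pool.MP_70e04f_ag.Hex Pool.MP_70e04f_ag.Add Pool.MP_70e04f_ag.Nine

/-- The acnodal cubic `y ^ 2 = x ^ 2 (x - 1)`. -/
noncomputable def ncu : MvPolynomial (Fin 2) ℝ := X 1 ^ 2 - X 0 ^ 3 + X 0 ^ 2

/-- The points of the acnodal cubic with parameters `s t`. -/
noncomputable def npt {τ : Type*} (s : τ → ℝ) (t : τ) : Fin 2 → ℝ :=
  ![s t ^ 2 + 1, s t * (s t ^ 2 + 1)]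

/-- Restriction to the acnodal cubic. -/
noncomputable def nod : MvPolynomial (Fin 2) ℝ →ₐ[ℝ] Polynomial ℝ :=
  aeval ![Polynomial.X ^ 2 + 1, Polynomial.X * (Polynomial.X ^ 2 + 1)]

/-- The imaginary part of the value at `i`. -/
noncomputable def nv (P : Polynomial ℝ) : ℝ := (Polynomial.aeval Complex.I P).im

/-- The monic polynomial with roots `s t` of multiplicities `a t`. -/
noncomputable def lin {τ : Type*} [Fintype τ] (s : τ → ℝ) (a : τ → ℕ) : Polynomial ℝ :=
  ∏ t, (Polynomial.X - Polynomial.C (s t)) ^ a t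

/-- Nine points in the position of a Halphen pencil of index `ν`. -/
structure Tors (ν : ℕ) (s : Fin 9 → ℝ) : Prop where
  inj : Function.Injective s
  full : nv (lin s (fun _ => ν)) = 0
  only : ∀ a : Fin 9 → ℕ, (∀ t, a t ≤ ν) → nv (lin s a) = 0 → (∀ t, a t = 0) ∨ (∀ t, a t = ν)

end Pool.MP_70e04f_ag.Hal
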