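import Pool.Agent.Lib_MP_70e04f_hal.Flat1
import Pool.Agent.Lib_MP_70e04f_ag.Mix4

/-!
# Filling rows of constant length (piece FLAT2)

HOW TO: compare `core_fill` and `main_fill` in `Lib_MP_70e04f_hex/Fill.lean` (sorting with
`exists_sorted`). Let `T = ∑ j ∈ range (β + 2), r0 j`.

`core_flat` (exact): if `∑ i, mm i * (mm i + 1) = 2 * ∑ j ∈ range (β + 2), r j` for a row function
`r` with the hypotheses of `mix_fill_flat` for `c0 = 1`, then there are `b c` with
`∑ i, vp (mm i) (b i) (c i) j = r j` (transport `mix_fill_flat` from the sorted `lam`).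

Few points, `∑ i, mm i * (mm i + 1) ≤ 2 * T`: append `x = T - (∑ i, mm i * (mm i + 1)) / 2` points
of multiplicity `1` (`Fin.append`), apply `core_flat` with `r = r0`, forget the new points.

Many points: let `x = (∑ i, mm i * (mm i + 1)) / 2 - T` and
`e j = if j < 2 * m then x / (2 * m) + (if j < x % (2 * m) then 1 else 0) else 0`; then
`∑ j < 2 m, e j = x`, `e` is antitone and `e j + e (j + 2) ≤ 2 * e (j + 1) + 1` for `j + 1 < m`. Apply
`core_flat` to ALL points with `r = r0 + e`: the hypotheses `hslope`, `hslope7` are preserved, because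
`m * (e j - e (j + 1)) + e (j + 1) ≥ 0`. So `r0 j ≤ ∑ i, vp (mm i) (b i) (c i) j`.
-/

namespace Pool.MP_70e04f_ag.Hal

open Pool.MP_70e04f_ag.Hex

/-- The exact filling, unsorted version. -/
theorem core_flat {n m β : ℕ} (mm : Fin n → ℕ) (r : ℕ → ℕ) (hm0 : 0 < m) (hmm : ∀ i, mm i ≤ m)
    (hβ : 2 * m ≤ β) (hz : ∀ j, β < j → r j = 0) (hmono : ∀ j, r (j + 1) ≤ r j)
    (hslope : ∀ j, j < β → m * (m + 2) + m * r (j + 1) ≤ m * r j + r (j + 1))
    (hslope7 : ∀ j, j < 2 * m → m * (8 * m + 3) + m * r (j + 1) ≤ m * r j + r (j + 1))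
    (hconc : ∀ j, j + 1 < m → r j + r (j + 2) ≤ 2 * r (j + 1) + 1)
    (htot : ∑ i, mm i * (mm i + 1) = 2 * ∑ j ∈ Finset.range (β + 2), r j) :
    ∃ b c : Fin n → ℕ, (∀ i, c i ≤ b i + 1) ∧ (∀ i, b i ≤ β) ∧
      ∀ j, ∑ i, vp (mm i) (b i) (c i) j = r j := by
  classical
  obtain ⟨lam, σ, hanti, hlam, hlam0⟩ := exists_sorted mm
  have hlm : ∀ i, lam i ≤ m := by
    intro i
    rcases Nat.lt_or_ge i n with h | h
    · have := hlam ⟨i, h⟩
      simp only at this
      rw [this]
      exact hmm _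
    · rw [hlam0 i h]; exact Nat.zero_le _
  have hsum : ∑ i ∈ Finset.range n, (lam i : ℤ) * (lam i + 1) =
      ((∑ i, mm i * (mm i + 1) : ℕ) : ℤ) := by
    rw [Finset.sum_range, ← Equiv.sum_comp σ (fun i => mm i * (mm i + 1))]
    push_cast
    refine Finset.sum_congr rfl fun i _ => ?_
    rw [hlam i]
  obtain ⟨b, c, g1, g2, g3⟩ := mix_fill_flat 1 lam n m β (fun j => (r j : ℤ)) hanti hm0 hlm hβ
    (by
      rw [hsum, htot]
      push_cast
      rfl)
    (fun s hs => by
      rw [hz s hs]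
      rfl)
    (by exact Int.natCast_nonneg _)
    (fun s _ => by
      exact_mod_cast hmono s)
    (fun s hs => by
      have h1 := hslope s hs
      have h2 : ((m * (m + 2) + m * r (s + 1) : ℕ) : ℤ) ≤ ((m * r s + r (s + 1) : ℕ) : ℤ) := by
        exact_mod_cast h1
      push_cast at h2
      linarith)
    (fun s hs => by
      have h1 := hslope7 s hs
      have h2 : ((m * (8 * m + 3) + m * r (s + 1) : ℕ) : ℤ) ≤
          ((m * r s + r (s + 1) : ℕ) : ℤ) := by
        exact_mod_cast h1
      push_cast at h2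
      push_cast
      linarith)
    (fun s hs => by
      have h1 := hconc s hs
      push_cast
      omega)
  refine ⟨fun i => b (σ.symm i), fun i => c (σ.symm i), fun i => g1 _, fun i => g2 _, ?_⟩
  intro j
  have h1 := g3 j
  have h2 : ∑ i, vp (mm i) (b (σ.symm i)) (c (σ.symm i)) j =
      ∑ i : Fin n, vp (lam i) (b i) (c i) j := by
    rw [← Equiv.sum_comp σ (fun i => vp (mm i) (b (σ.symm i)) (c (σ.symm i)) j)]
    refine Finset.sum_congr rfl fun i _ => ?_
    rw [Equiv.symm_apply_apply, hlam i]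
  rw [Finset.sum_range] at h1
  beta_reduce
  rw [h2]
  exact_mod_cast h1

/-- the excess -/
private def exc (m x j : ℕ) : ℕ :=
  if j < 2 * m then x / (2 * m) + (if j < x % (2 * m) then 1 else 0) else 0

private lemma exc_anti (m x j : ℕ) : exc m x (j + 1) ≤ exc m x j := by
  unfold exc
  generalize x / (2 * m) = q
  generalize x % (2 * m) = R
  split_ifs <;> omega

private lemma exc_zero (m x j : ℕ) (h : 2 * m ≤ j) : exc m x j = 0 := by
  unfold exc
  rw [if_neg (by omega)]

private lemma exc_conc (m x j : ℕ) (h : j + 1 < m) :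
    exc m x j + exc m x (j + 2) ≤ 2 * exc m x (j + 1) + 1 := by
  unfold exc
  generalize x / (2 * m) = q
  generalize x % (2 * m) = R
  rw [if_pos (show j < 2 * m by omega), if_pos (show j + 2 < 2 * m by omega),
    if_pos (show j + 1 < 2 * m by omega)]
  split_ifs <;> omega

private lemma exc_sum (m x B : ℕ) (hm : 0 < m) (hB : 2 * m ≤ B) :
    ∑ j ∈ Finset.range B, exc m x j = x := by
  have h1 : ∑ j ∈ Finset.range B, exc m x j = ∑ j ∈ Finset.range (2 * m), exc m x j := by
    symm
    apply Finset.sum_subset (Finset.range_subset_range.2 hB)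
    intro j _ hj
    rw [Finset.mem_range, not_lt] at hj
    exact exc_zero m x j hj
  rw [h1]
  have h2 : ∑ j ∈ Finset.range (2 * m), exc m x j =
      ∑ j ∈ Finset.range (2 * m), (x / (2 * m) + (if j < x % (2 * m) then 1 else 0)) := by
    refine Finset.sum_congr rfl fun j hj => ?_
    rw [Finset.mem_range] at hj
    unfold exc
    rw [if_pos hj]
  have hlt : x % (2 * m) < 2 * m := Nat.mod_lt _ (by omega)
  rw [h2, Finset.sum_add_distrib, Finset.sum_const, Finset.card_range, smul_eq_mul,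
    ← Finset.card_filter]
  have h3 : (Finset.range (2 * m)).filter (fun j => j < x % (2 * m)) =
      Finset.range (x % (2 * m)) := by
    ext j
    rw [Finset.mem_filter, Finset.mem_range, Finset.mem_range]
    omega
  rw [h3, Finset.card_range]
  exact Nat.div_add_mod x (2 * m)

/-- Front positions for long rows. -/
theorem main_flat {n m β : ℕ} (mm : Fin n → ℕ) (r0 : ℕ → ℕ) (hm0 : 0 < m) (hmm : ∀ i, mm i ≤ m)
    (hβ : 2 * m ≤ β) (hz : ∀ j, β < j → r0 j = 0) (hmono : ∀ j, r0 (j + 1) ≤ r0 j)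
    (hslope : ∀ j, j < β → m * (m + 2) + m * r0 (j + 1) ≤ m * r0 j + r0 (j + 1))
    (hslope7 : ∀ j, j < 2 * m → m * (8 * m + 3) + m * r0 (j + 1) ≤ m * r0 j + r0 (j + 1))
    (hconc : ∀ j, j + 1 < m → r0 j + r0 (j + 2) ≤ 2 * r0 (j + 1)) :
    ∃ b c : Fin n → ℕ, (∀ i, c i ≤ b i + 1) ∧ (∀ i, b i ≤ β) ∧
      ((∀ j, r0 j ≤ ∑ i, vp (mm i) (b i) (c i) j) ∨
        (∀ j, ∑ i, vp (mm i) (b i) (c i) j ≤ r0 j)) := by
  classical
  set T := ∑ j ∈ Finset.range (β + 2), r0 j with hT
  have hpars : (∑ i, mm i * (mm i + 1)) % 2 = 0 := by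
    apply Nat.even_iff.1
    apply Finset.even_sum
    intro i _
    exact Nat.even_mul_succ_self _
  rcases Nat.le_total (∑ i, mm i * (mm i + 1)) (2 * T) with hcase | hcase
  · -- few points
    obtain ⟨x, hx⟩ : ∃ x, ∑ i, mm i * (mm i + 1) + 2 * x = 2 * T :=
      ⟨(2 * T - ∑ i, mm i * (mm i + 1)) / 2, by omega⟩
    obtain ⟨b, c, g1, g2, g3⟩ := core_flat (n := n + x) (Fin.append mm (fun _ => 1)) r0 hm0
      (by
        intro i
        refine Fin.addCases (fun i => ?_) (fun i => ?_) i
        · rw [Fin.append_left]; exact hmm i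
        · rw [Fin.append_right]; omega) hβ hz hmono hslope hslope7
      (fun j hj => (hconc j hj).trans (Nat.le_succ _))
      (by
        rw [Fin.sum_univ_add]
        simp only [Fin.append_left, Fin.append_right, Finset.sum_const, Finset.card_univ,
          Fintype.card_fin, smul_eq_mul]
        omega)
    refine ⟨fun i => b (Fin.castAdd x i), fun i => c (Fin.castAdd x i), fun i => g1 _,
      fun i => g2 _, Or.inr ?_⟩
    intro j
    have h1 := g3 j
    rw [Fin.sum_univ_add] at h1
    simp only [Fin.append_left] at h1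
    beta_reduce
    omega
  · -- many points
    obtain ⟨x, hx⟩ : ∃ x, ∑ i, mm i * (mm i + 1) = 2 * (T + x) :=
      ⟨(∑ i, mm i * (mm i + 1)) / 2 - T, by omega⟩
    have hex : ∀ (j D : ℕ), D + m * r0 (j + 1) ≤ m * r0 j + r0 (j + 1) →
        D + m * (r0 (j + 1) + exc m x (j + 1)) ≤
          m * (r0 j + exc m x j) + (r0 (j + 1) + exc m x (j + 1)) := by
      intro j D h
      have h1 : m * exc m x (j + 1) ≤ m * exc m x j := Nat.mul_le_mul_left _ (exc_anti m x j)
      rw [Nat.mul_add, Nat.mul_add]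
      omega
    obtain ⟨b, c, g1, g2, g3⟩ := core_flat mm (fun j => r0 j + exc m x j) hm0 hmm hβ
      (fun j hj => by
        rw [hz j hj, exc_zero m x j (by omega)])
      (fun j => Nat.add_le_add (hmono j) (exc_anti m x j))
      (fun j hj => hex j _ (hslope j hj))
      (fun j hj => hex j _ (hslope7 j hj))
      (fun j hj => by
        have h1 := hconc j hj
        have h2 := exc_conc m x j hj
        omega)
      (by
        rw [Finset.sum_add_distrib, exc_sum m x (β + 2) hm0 (by omega), hx])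
    refine ⟨b, c, g1, g2, Or.inl ?_⟩
    intro j
    rw [g3 j]
    exact Nat.le_add_right _ _

end Pool.MP_70e04f_ag.Hal
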