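import Pool.Agent.Lib_MP_70e04f_hal.Flat2
import Pool.Agent.Lib_MP_70e04f_nine.Class

/-!
# A set of exponents with constant rows (piece FLAT3)

PAPER PROOF. Apply `main_flat` to `r0 j = rowc Q j` with `β = W + 1` if `rowc Q (W + 1) ≠ 0` and
`β = W` otherwise, then `OK.of_front` (as at the end of `ok_of_rows` in
`Lib_MP_70e04f_nine/Class.lean`). The slopes: for `j + 1 < W` both rows are `L` and
`L ≥ 8 m ^ 2 + 3 m = m (8 m + 3) ≥ m (m + 2)`. For `j = W - 1`: with `y = rowc Q W ≤ L` one has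
`m (L - y) + y ≥ L` or `≥ m L`: precisely `m L + y ≥ m y + L` (as `(m - 1)(L - y) ≥ 0`), so the
claim follows from the bound for `L`. For `j = W` (only if `β = W + 1`):
`m (rowc Q W - rowc Q (W + 1)) ≥ m (m + 2)`. In `hslope7` only `j ≤ 2 m - 1 ≤ W - 1` occurs.
Concavity: rows `j`, `j + 1`, `j + 2` with `j + 2 ≤ m < W` are all `L`.
-/

namespace Pool.MP_70e04f_ag.Hal

open Pool.MP_70e04f_ag.Hex Pool.MP_70e04f_ag.Add Pool.MP_70e04f_ag.Nine

/-- A set of exponents with constant rows. -/
theorem ok_flat {n : ℕ} (m W L : ℕ) (Q : Finset (ℕ × ℕ)) (mm : Fin n → ℕ) (hm0 : 0 < m)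
    (hmm : ∀ i, mm i ≤ m) (hW : 2 * m ≤ W) (hL : 8 * m ^ 2 + 3 * m ≤ L)
    (hrow : ∀ j, j < W → rowc Q j = L) (hz : ∀ j, W + 2 ≤ j → rowc Q j = 0)
    (h1 : rowc Q W ≤ L) (h2 : rowc Q (W + 1) = 0 ∨ rowc Q (W + 1) + m + 2 ≤ rowc Q W) :
    OK Q mm := by
  have hlast : ∀ y, y ≤ L → ∀ B, B ≤ L → B + m * y ≤ m * L + y := by
    intro y hy B hB
    obtain ⟨x, hx⟩ : ∃ x, L = y + x := ⟨L - y, by omega⟩
    obtain ⟨m', hm'⟩ : ∃ m', m = m' + 1 := ⟨m - 1, by omega⟩
    rw [hx, hm']
    rw [hx] at hB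
    have e : (m' + 1) * (y + x) + y = (y + x) + (m' + 1) * y + m' * x := by ring
    rw [e]
    omega
  have hLa : m * (m + 2) ≤ L := by
    have e : 8 * m ^ 2 + 3 * m = m * (m + 2) + (7 * m ^ 2 + m) := by ring
    omega
  have hLb : m * (8 * m + 3) ≤ L := by
    have e : 8 * m ^ 2 + 3 * m = m * (8 * m + 3) := by ring
    omega
  have hstep : ∀ B, B ≤ L → ∀ j, j < W →
      B + m * rowc Q (j + 1) ≤ m * rowc Q j + rowc Q (j + 1) := by
    intro B hB j hj
    rcases Nat.lt_or_ge (j + 1) W with h | h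
    · rw [hrow j hj, hrow (j + 1) h]
      omega
    · rw [hrow j hj]
      have e : j + 1 = W := by omega
      rw [e]
      exact hlast _ h1 B hB
  have hmono : ∀ j, rowc Q (j + 1) ≤ rowc Q j := by
    intro j
    rcases Nat.lt_or_ge j W with h | h
    · rw [hrow j h]
      rcases Nat.lt_or_ge (j + 1) W with h' | h'
      · rw [hrow _ h']
      · rw [show j + 1 = W by omega]
        exact h1
    · rcases Nat.lt_or_ge W j with h' | h'
      · rw [hz (j + 1) (by omega)]
        exact Nat.zero_le _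
      · rw [show j = W by omega]
        omega
  have hslope7 : ∀ j, j < 2 * m →
      m * (8 * m + 3) + m * rowc Q (j + 1) ≤ m * rowc Q j + rowc Q (j + 1) :=
    fun j hj => hstep _ hLb j (by omega)
  have hconc : ∀ j, j + 1 < m → rowc Q j + rowc Q (j + 2) ≤ 2 * rowc Q (j + 1) := by
    intro j hj
    rw [hrow j (by omega), hrow (j + 1) (by omega), hrow (j + 2) (by omega)]
    omega
  by_cases h0 : rowc Q (W + 1) = 0
  · obtain ⟨b, c, g1, -, g3⟩ := main_flat (β := W) mm (rowc Q) hm0 hmm hW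
      (by
        intro j hj
        rcases Nat.lt_or_ge (W + 1) j with h | h
        · exact hz j (by omega)
        · rw [show j = W + 1 by omega]
          exact h0)
      hmono (fun j hj => hstep _ hLa j hj) hslope7 hconc
    exact OK.of_front Q mm b c g1 g3
  · have h3 : rowc Q (W + 1) + m + 2 ≤ rowc Q W := by
      rcases h2 with h | h
      · exact absurd h h0
      · exact h
    obtain ⟨b, c, g1, -, g3⟩ := main_flat (β := W + 1) mm (rowc Q) hm0 hmm (by omega)
      (fun j hj => hz j (by omega)) hmono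
      (by
        intro j hj
        rcases Nat.lt_or_ge j W with h | h
        · exact hstep _ hLa j h
        · rw [show j = W by omega]
          have h4 : m * (rowc Q (W + 1) + (m + 2)) ≤ m * rowc Q W :=
            Nat.mul_le_mul_left m (by omega)
          have e : m * (rowc Q (W + 1) + (m + 2)) = m * rowc Q (W + 1) + m * (m + 2) := by ring
          omega)
      hslope7 hconc
    exact OK.of_front Q mm b c g1 g3

end Pool.MP_70e04f_ag.Hal
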