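import Mathlib

/-!
# The numerical estimates (piece HNUM)

PAPER PROOF.

`exists_nu`: let `A = max (8 m ^ 2 + 3 m) ((3 κ ^ 2 + κ + 2 m + 6 + 1) / 2)` and `ν = (A + κ - 1) / κ`
(the least `ν` with `A ≤ ν κ`); then `ν κ < A + κ`, and with `κ ≤ 18 m`:
`(3 κ ^ 2 + κ + 2 m + 7) / 2 + κ ≤ 486 m ^ 2 + 28 m + 4 ≤ 518 m ^ 2`.

`deg_le`: the eight numbers `x t`, `t ≠ t0`, have any three of sum `≤ g`; adding up the eight cyclic
triples `3 ∑ x t ≤ 8 g`; so `3 (3 g - κ) ≤ 8 g`. In Lean: `fin_cases t0`, eight instances of `h3` (for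
`t0 = 8`: `{0,1,2}, {1,2,3}, ..., {7,0,1}`), `Finset.sum_insert`, `Fin.sum_univ_succ` (or
`sum9`-like expansion), `omega`.

`sq_le`: `(∑ x t) ^ 2 ≤ 8 ∑ x t ^ 2` (Cauchy-Schwarz for the eight numbers,
`sq_sum_le_card_mul_sum_sq` or `Finset.sum_mul_sq_le_sq_mul_sq`), `∑ x t = 3 g - κ`, and
`8 g ^ 2 ≤ (3 g - κ) ^ 2 + 8 κ ^ 2` because `(g - 3 κ) ^ 2 ≥ 0`.

`sq_of_deg2`: as `sq_of_deg` in `Lib_MP_70e04f_nine/Deg.lean`: with `S = ν 2`, `ν 1 = S + b`,
`ν 0 = S + b + a`, `d = ν 0 + ν 1 + S + g`, `u = a + 2 b + g`,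
`k = (S - ν 3) + ... + (S - ν 8)` one has `d = 3 S + u`, `κ = 3 g + 2 a + 4 b + k ≤ 4 u + k` and
`∑ ν j ^ 2 + 4 u S + k S ≤ d ^ 2`; it is enough that `4 u S + k S ≥ 3100 m ^ 3`.
Case `d ≤ 100 u`: `4 u S ≥ 3100 m ^ 3`: if `S ≥ 100 m ^ 2` then
`400 u S ≥ 4 d S ≥ 4 * 780 m ^ 2 * 100 m ^ 2`; if `m ≤ S ≤ 100 m ^ 2` then
`u S = (d - 3 S) S ≥ (780 m ^ 2 - 3 S) S`, and the concave function `(780 m ^ 2 - 3 S) S` of `S`
is at least the minimum of its values at `m` and at `100 m ^ 2`, i.e. of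
`780 m ^ 3 - 3 m ^ 2 ≥ 777 m ^ 3` and `48000 m ^ 4`; and `4 * 777 = 3108`.
Case `100 u < d`: `300 S = 100 d - 100 u > 99 d`, so
`(4 u + k) S ≥ κ S` and `300 κ S ≥ 99 κ d ≥ 99 * 9400 m ^ 3 ≥ 300 * 3100 m ^ 3`.
-/

namespace Pool.MP_70e04f_ag.Hal

/-- The index of the pencil. -/
lemma exists_nu {m κ : ℕ} (hm : 1 ≤ m) (hκ : 1 ≤ κ) (hκm : κ ≤ 18 * m) :
    ∃ ν, 8 * m ^ 2 + 3 * m ≤ ν * κ ∧ 3 * κ ^ 2 + κ + 2 * m + 6 ≤ 2 * (ν * κ) ∧
      ν * κ ≤ 518 * m ^ 2 := by
  obtain ⟨A, hA⟩ : ∃ A, A = max (8 * m ^ 2 + 3 * m) ((3 * κ ^ 2 + κ + 2 * m + 7) / 2) := ⟨_, rfl⟩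
  have hA1 : 8 * m ^ 2 + 3 * m ≤ A := by rw [hA]; exact le_max_left _ _
  have hA2 : (3 * κ ^ 2 + κ + 2 * m + 7) / 2 ≤ A := by rw [hA]; exact le_max_right _ _
  have hk2 : κ ^ 2 ≤ 324 * m ^ 2 := by
    have := Nat.pow_le_pow_left hκm 2
    have e : (18 * m) ^ 2 = 324 * m ^ 2 := by ring
    omega
  have hmm : m ≤ m ^ 2 := Nat.le_self_pow (by norm_num) m
  have hA3 : A + κ ≤ 518 * m ^ 2 := by
    rw [hA]
    rcases le_total (8 * m ^ 2 + 3 * m) ((3 * κ ^ 2 + κ + 2 * m + 7) / 2) with h | h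
    · rw [max_eq_right h]; omega
    · rw [max_eq_left h]; omega
  have h1 := Nat.div_add_mod A κ
  have h2 := Nat.mod_lt A (show 0 < κ by omega)
  have h3 : (A / κ + 1) * κ = κ * (A / κ) + κ := by ring
  refine ⟨A / κ + 1, ?_, ?_, ?_⟩
  · rw [h3]; omega
  · rw [h3]; omega
  · rw [h3]; omega

lemma nine_cases : ∀ t : Fin 9, t = 0 ∨ t = 1 ∨ t = 2 ∨ t = 3 ∨ t = 4 ∨ t = 5 ∨ t = 6 ∨ t = 7 ∨
    t = 8 := by decide

lemma nine_sum (x : Fin 9 → ℕ) : ∑ t, x t = x 0 + x 1 + x 2 + x 3 + x 4 + x 5 + x 6 + x 7 + x 8 := by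
  rw [Fin.sum_univ_castSucc, Fin.sum_univ_eight]
  rfl

/-- The degree of a standard class of small anticanonical degree on eight points. -/
lemma deg_le {g κ : ℕ} {x : Fin 9 → ℕ} {t0 : Fin 9} (h0 : x t0 = 0)
    (h3 : ∀ U : Finset (Fin 9), U.card ≤ 3 → ∑ t ∈ U, x t ≤ g) (hκ : ∑ t, x t + κ = 3 * g) :
    g ≤ 3 * κ := by
  have h3' : ∀ a b c : Fin 9, a ≠ b → a ≠ c → b ≠ c → x a + x b + x c ≤ g := by
    intro a b c hab hac hbc
    have h := h3 {a, b, c} Finset.card_le_three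
    rw [Finset.sum_insert (by simp [hab, hac]), Finset.sum_insert (by simp [hbc]),
      Finset.sum_singleton] at h
    omega
  rw [nine_sum] at hκ
  rcases nine_cases t0 with rfl | rfl | rfl | rfl | rfl | rfl | rfl | rfl | rfl
  · have z := h0
    have e0 := h3' 1 2 3 (by decide) (by decide) (by decide)
    have e1 := h3' 2 3 4 (by decide) (by decide) (by decide)
    have e2 := h3' 3 4 5 (by decide) (by decide) (by decide)
    have e3 := h3' 4 5 6 (by decide) (by decide) (by decide)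
    have e4 := h3' 5 6 7 (by decide) (by decide) (by decide)
    have e5 := h3' 6 7 8 (by decide) (by decide) (by decide)
    have e6 := h3' 7 8 1 (by decide) (by decide) (by decide)
    have e7 := h3' 8 1 2 (by decide) (by decide) (by decide)
    omega
  · have z := h0
    have e0 := h3' 0 2 3 (by decide) (by decide) (by decide)
    have e1 := h3' 2 3 4 (by decide) (by decide) (by decide)
    have e2 := h3' 3 4 5 (by decide) (by decide) (by decide)
    have e3 := h3' 4 5 6 (by decide) (by decide) (by decide)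
    have e4 := h3' 5 6 7 (by decide) (by decide) (by decide)
    have e5 := h3' 6 7 8 (by decide) (by decide) (by decide)
    have e6 := h3' 7 8 0 (by decide) (by decide) (by decide)
    have e7 := h3' 8 0 2 (by decide) (by decide) (by decide)
    omega
  · have z := h0
    have e0 := h3' 0 1 3 (by decide) (by decide) (by decide)
    have e1 := h3' 1 3 4 (by decide) (by decide) (by decide)
    have e2 := h3' 3 4 5 (by decide) (by decide) (by decide)
    have e3 := h3' 4 5 6 (by decide) (by decide) (by decide)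
    have e4 := h3' 5 6 7 (by decide) (by decide) (by decide)
    have e5 := h3' 6 7 8 (by decide) (by decide) (by decide)
    have e6 := h3' 7 8 0 (by decide) (by decide) (by decide)
    have e7 := h3' 8 0 1 (by decide) (by decide) (by decide)
    omega
  · have z := h0
    have e0 := h3' 0 1 2 (by decide) (by decide) (by decide)
    have e1 := h3' 1 2 4 (by decide) (by decide) (by decide)
    have e2 := h3' 2 4 5 (by decide) (by decide) (by decide)
    have e3 := h3' 4 5 6 (by decide) (by decide) (by decide)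
    have e4 := h3' 5 6 7 (by decide) (by decide) (by decide)
    have e5 := h3' 6 7 8 (by decide) (by decide) (by decide)
    have e6 := h3' 7 8 0 (by decide) (by decide) (by decide)
    have e7 := h3' 8 0 1 (by decide) (by decide) (by decide)
    omega
  · have z := h0
    have e0 := h3' 0 1 2 (by decide) (by decide) (by decide)
    have e1 := h3' 1 2 3 (by decide) (by decide) (by decide)
    have e2 := h3' 2 3 5 (by decide) (by decide) (by decide)
    have e3 := h3' 3 5 6 (by decide) (by decide) (by decide)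
    have e4 := h3' 5 6 7 (by decide) (by decide) (by decide)
    have e5 := h3' 6 7 8 (by decide) (by decide) (by decide)
    have e6 := h3' 7 8 0 (by decide) (by decide) (by decide)
    have e7 := h3' 8 0 1 (by decide) (by decide) (by decide)
    omega
  · have z := h0
    have e0 := h3' 0 1 2 (by decide) (by decide) (by decide)
    have e1 := h3' 1 2 3 (by decide) (by decide) (by decide)
    have e2 := h3' 2 3 4 (by decide) (by decide) (by decide)
    have e3 := h3' 3 4 6 (by decide) (by decide) (by decide)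
    have e4 := h3' 4 6 7 (by decide) (by decide) (by decide)
    have e5 := h3' 6 7 8 (by decide) (by decide) (by decide)
    have e6 := h3' 7 8 0 (by decide) (by decide) (by decide)
    have e7 := h3' 8 0 1 (by decide) (by decide) (by decide)
    omega
  · have z := h0
    have e0 := h3' 0 1 2 (by decide) (by decide) (by decide)
    have e1 := h3' 1 2 3 (by decide) (by decide) (by decide)
    have e2 := h3' 2 3 4 (by decide) (by decide) (by decide)
    have e3 := h3' 3 4 5 (by decide) (by decide) (by decide)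
    have e4 := h3' 4 5 7 (by decide) (by decide) (by decide)
    have e5 := h3' 5 7 8 (by decide) (by decide) (by decide)
    have e6 := h3' 7 8 0 (by decide) (by decide) (by decide)
    have e7 := h3' 8 0 1 (by decide) (by decide) (by decide)
    omega
  · have z := h0
    have e0 := h3' 0 1 2 (by decide) (by decide) (by decide)
    have e1 := h3' 1 2 3 (by decide) (by decide) (by decide)
    have e2 := h3' 2 3 4 (by decide) (by decide) (by decide)
    have e3 := h3' 3 4 5 (by decide) (by decide) (by decide)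
    have e4 := h3' 4 5 6 (by decide) (by decide) (by decide)
    have e5 := h3' 5 6 8 (by decide) (by decide) (by decide)
    have e6 := h3' 6 8 0 (by decide) (by decide) (by decide)
    have e7 := h3' 8 0 1 (by decide) (by decide) (by decide)
    omega
  · have z := h0
    have e0 := h3' 0 1 2 (by decide) (by decide) (by decide)
    have e1 := h3' 1 2 3 (by decide) (by decide) (by decide)
    have e2 := h3' 2 3 4 (by decide) (by decide) (by decide)
    have e3 := h3' 3 4 5 (by decide) (by decide) (by decide)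
    have e4 := h3' 4 5 6 (by decide) (by decide) (by decide)
    have e5 := h3' 5 6 7 (by decide) (by decide) (by decide)
    have e6 := h3' 6 7 0 (by decide) (by decide) (by decide)
    have e7 := h3' 7 0 1 (by decide) (by decide) (by decide)
    omega

/-- The Hodge index inequality on eight points. -/
lemma sq_le {g κ : ℕ} {x : Fin 9 → ℕ} {t0 : Fin 9} (h0 : x t0 = 0)
    (hκ : ∑ t, x t + κ = 3 * g) : g ^ 2 ≤ ∑ t, x t ^ 2 + κ ^ 2 := by
  have e1 : ∑ t ∈ Finset.univ.erase t0, x t = ∑ t, x t := by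
    rw [← Finset.add_sum_erase Finset.univ x (Finset.mem_univ t0), h0, Nat.zero_add]
  have e2 : ∑ t ∈ Finset.univ.erase t0, x t ^ 2 = ∑ t, x t ^ 2 := by
    rw [← Finset.add_sum_erase Finset.univ (fun t => x t ^ 2) (Finset.mem_univ t0)]
    simp [h0]
  have hcs : (∑ t ∈ Finset.univ.erase t0, (x t : ℤ)) ^ 2 ≤
      ((Finset.univ.erase t0).card : ℤ) * ∑ t ∈ Finset.univ.erase t0, (x t : ℤ) ^ 2 :=
    sq_sum_le_card_mul_sum_sq
  have hc : (Finset.univ.erase t0).card = 8 := by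
    rw [Finset.card_erase_of_mem (Finset.mem_univ t0)]
    simp
  have e3 : ∑ t ∈ Finset.univ.erase t0, (x t : ℤ) = 3 * (g : ℤ) - κ := by
    have : ((∑ t ∈ Finset.univ.erase t0, x t : ℕ) : ℤ) = 3 * (g : ℤ) - κ := by
      rw [e1]
      omega
    rw [← this]
    push_cast
    rfl
  have e4 : ∑ t ∈ Finset.univ.erase t0, (x t : ℤ) ^ 2 = ((∑ t, x t ^ 2 : ℕ) : ℤ) := by
    rw [← e2]
    push_cast
    rfl
  rw [e3, e4, hc] at hcs
  obtain ⟨B, hB⟩ : ∃ B : ℕ, B = ∑ t, x t ^ 2 := ⟨_, rfl⟩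
  rw [← hB] at hcs ⊢
  zify
  push_cast at hcs
  nlinarith [sq_nonneg ((g : ℤ) - 3 * κ)]

/-- The self-intersection is large when the degree is. -/
lemma sq_of_deg2 {ν : ℕ → ℕ} (hν : Antitone ν) {m d κ : ℕ} (hm : 1 ≤ m) (hm9 : m ≤ ν 8)
    (hd : ν 0 + ν 1 + ν 2 ≤ d)
    (hK : ν 0 + ν 1 + ν 2 + ν 3 + ν 4 + ν 5 + ν 6 + ν 7 + ν 8 + κ = 3 * d)
    (hbig : 780 * m ^ 2 ≤ d) (hκ : 9400 * m ^ 3 ≤ κ * d) :
    ν 0 ^ 2 + ν 1 ^ 2 + ν 2 ^ 2 + ν 3 ^ 2 + ν 4 ^ 2 + ν 5 ^ 2 + ν 6 ^ 2 + ν 7 ^ 2 +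
      ν 8 ^ 2 + 3100 * m ^ 3 ≤ d ^ 2 := by
  have a0 := hν (show 0 ≤ 1 by norm_num)
  have a1 := hν (show 1 ≤ 2 by norm_num)
  have h := fun j (hj : 2 ≤ j) => hν hj
  obtain ⟨S, hS⟩ : ∃ S, S = ν 2 := ⟨_, rfl⟩
  have key : ∀ j, 2 ≤ j → ν j ^ 2 + (S - ν j) * S ≤ S ^ 2 := by
    intro j hj
    have h1 := h j hj
    rw [← hS] at h1
    obtain ⟨p, hp⟩ : ∃ p, S = ν j + p := ⟨S - ν j, by omega⟩
    rw [hp, Nat.add_sub_cancel_left]
    have e : (ν j + p) ^ 2 = ν j ^ 2 + p * (ν j + p) + ν j * p := by ring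
    rw [e]
    exact Nat.le_add_right _ _
  have k3 := key 3 (by norm_num)
  have k4 := key 4 (by norm_num)
  have k5 := key 5 (by norm_num)
  have k6 := key 6 (by norm_num)
  have k7 := key 7 (by norm_num)
  have k8 := key 8 (by norm_num)
  have l3 := h 3 (by norm_num)
  have l4 := h 4 (by norm_num)
  have l5 := h 5 (by norm_num)
  have l6 := h 6 (by norm_num)
  have l7 := h 7 (by norm_num)
  have l8 := h 8 (by norm_num)
  rw [← hS] at l3 l4 l5 l6 l7 l8 a1 hd hK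
  obtain ⟨k, hk⟩ : ∃ k, k = (S - ν 3) + (S - ν 4) + (S - ν 5) + (S - ν 6) + (S - ν 7) +
    (S - ν 8) := ⟨_, rfl⟩
  have k9 : ν 3 ^ 2 + ν 4 ^ 2 + ν 5 ^ 2 + ν 6 ^ 2 + ν 7 ^ 2 + ν 8 ^ 2 + k * S ≤ 6 * S ^ 2 := by
    have e : k * S = (S - ν 3) * S + (S - ν 4) * S + (S - ν 5) * S + (S - ν 6) * S +
        (S - ν 7) * S + (S - ν 8) * S := by rw [hk]; ring
    omega
  have k10 : ν 3 + ν 4 + ν 5 + ν 6 + ν 7 + ν 8 + k = 6 * S := by omega
  obtain ⟨b, hb⟩ : ∃ b, ν 1 = S + b := ⟨ν 1 - S, by omega⟩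
  obtain ⟨a, ha⟩ : ∃ a, ν 0 = S + b + a := ⟨ν 0 - ν 1, by omega⟩
  obtain ⟨g, hg⟩ : ∃ g, d = ν 0 + ν 1 + S + g := ⟨d - (ν 0 + ν 1 + S), by omega⟩
  have hmS : m ≤ S := by omega
  have hdd : d = 3 * S + (a + 2 * b + g) := by omega
  have hκ2 : κ = 3 * g + 2 * a + 4 * b + k := by omega
  have hD : ν 0 ^ 2 + ν 1 ^ 2 + S ^ 2 + 6 * S ^ 2 + 4 * (a + 2 * b + g) * S ≤ d ^ 2 := by
    rw [hg, ha, hb]
    have e : (S + b + a + (S + b) + S + g) ^ 2 = (S + b + a) ^ 2 + (S + b) ^ 2 + S ^ 2 +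
        6 * S ^ 2 + 4 * (a + 2 * b + g) * S +
        (g ^ 2 + 2 * g * S + 4 * g * b + 2 * g * a + 2 * b ^ 2 + 2 * a * b) := by ring
    rw [e]
    exact Nat.le_add_right _ _
  rw [← hS]
  clear key hν h k3 k4 k5 k6 k7 k8
  suffices hmain : 3100 * m ^ 3 ≤ 4 * (a + 2 * b + g) * S + k * S by omega
  obtain ⟨u, hu⟩ : ∃ u, u = a + 2 * b + g := ⟨_, rfl⟩
  rw [← hu] at hdd ⊢
  have h8 : (m : ℤ) ≤ (m : ℤ) ^ 2 := by exact_mod_cast Nat.le_self_pow (by norm_num) m
  have h9 : (0 : ℤ) ≤ (m : ℤ) ^ 2 := by positivity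
  have h7 : (0 : ℤ) ≤ (m : ℤ) ^ 3 := by positivity
  have h6 : (m : ℤ) ^ 2 ≤ (m : ℤ) ^ 3 := pow_le_pow_right₀ (by exact_mod_cast hm) (by norm_num)
  have h5 : (m : ℤ) ^ 3 ≤ (m : ℤ) ^ 4 := pow_le_pow_right₀ (by exact_mod_cast hm) (by norm_num)
  rcases Nat.lt_or_ge (100 * u) d with hlt | hge
  · -- d large compared with u
    have hS1 : 99 * d ≤ 300 * S := by omega
    have hk4 : κ ≤ 4 * u + k := by omega
    have f1 : κ * S ≤ (4 * u + k) * S := Nat.mul_le_mul_right S hk4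
    have f2 : κ * (99 * d) ≤ κ * (300 * S) := Nat.mul_le_mul_left κ hS1
    have f3 : (4 * u + k) * S = 4 * u * S + k * S := by ring
    have f4 : κ * (99 * d) = 99 * (κ * d) := by ring
    have f5 : κ * (300 * S) = 300 * (κ * S) := by ring
    omega
  · have h2 : 3100 * m ^ 3 ≤ 4 * u * S := by
      rcases Nat.lt_or_ge S (100 * m ^ 2) with hS1 | hS1
      · zify at *
        have h3 : (0 : ℤ) ≤ ((S : ℤ) - m) * (100 * (m : ℤ) ^ 2 - S) :=
          mul_nonneg (by linarith) (by linarith)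
        have h4 : (780 * (m : ℤ) ^ 2 - 3 * S) * S ≤ u * S :=
          mul_le_mul_of_nonneg_right (by linarith) (by positivity)
        have h5 : (0 : ℤ) ≤ ((S : ℤ) - m) * (480 * (m : ℤ) ^ 2 - 3 * m) :=
          mul_nonneg (by linarith) (by linarith)
        have e1 : (780 * (m : ℤ) ^ 2 - 3 * S) * S = 3 * (((S : ℤ) - m) * (100 * (m : ℤ) ^ 2 - S)) +
            ((S : ℤ) - m) * (480 * (m : ℤ) ^ 2 - 3 * m) + 780 * (m : ℤ) ^ 3 - 3 * (m : ℤ) ^ 2 := by
          ring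
        have e2 : 4 * (u : ℤ) * S = 4 * (u * S) := by ring
        rw [e2]
        linarith
      · have f1 : d * (100 * m ^ 2) ≤ 100 * u * S := Nat.mul_le_mul hge hS1
        have f2 : 780 * m ^ 2 * (100 * m ^ 2) ≤ d * (100 * m ^ 2) :=
          Nat.mul_le_mul_right _ hbig
        have f3 : 780 * m ^ 2 * (100 * m ^ 2) = 78000 * m ^ 4 := by ring
        have f4 : 100 * u * S = 100 * (u * S) := by ring
        have f5 : m ^ 3 ≤ m ^ 4 := Nat.pow_le_pow_right hm (by norm_num)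
        have f6 : 4 * u * S = 4 * (u * S) := by ring
        omega
    exact h2.trans (Nat.le_add_right _ _)

end Pool.MP_70e04f_ag.Hal
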