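import Pool.Agent.Lib_MP_70e04f_hal.NodD

/-!
# The members of the Halphen pencil are irreducible (piece NODF)

PAPER PROOF. `totalDegree f ≤ 3 ν` (`mem_range_tri`), and `coeff_nod_top` with `k = 3 ν`:
`coeff (mon 0 (3 ν)) f = (nod f).coeff (9 ν) = c ≠ 0` (`natDegree_lin`, `lin_monic`); hence
`totalDegree f = 3 ν` (`le_totalDegree`, see the end of `exists_curve` in
`Lib_MP_70e04f_nine/Curve.lean`).

Exact multiplicities: otherwise `(X - C (s t)) ^ (ν + 1) ∣ nod f = C c * lin s ν` by `dvd_nod`;
cancel `(X - C (s t)) ^ ν` and evaluate at `s t`: the other factors do not vanish.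

Irreducible: `f` is not a unit (`natDegree (nod f) = 9 ν > 0`). Let `f = g * h`. Then
`totalDegree g + totalDegree h = 3 ν`, `natDegree (nod g) + natDegree (nod h) = 9 ν`, so
`natDegree (nod g) = 3 totalDegree g` by `natDegree_nod_le`. As `nod g ∣ C c * lin s ν`, one has
`nod g = C c' * lin s a` with `c' ≠ 0`, `a t ≤ ν` (`exists_lin_of_dvd`; compare
`natDegree_eq_zero_of_dvd` in `Lib_MP_70e04f_nine`). By `nv_nod`
`0 = nv (C c' * lin s a) = c' * nv (lin s a)`, so by `Tors.only` all `a t = 0`, and then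
`totalDegree g = 0`, `g` is a nonzero constant, a unit; or all `a t = ν`, and then
`totalDegree g = 3 ν`, `totalDegree h = 0`, `h` is a unit (`totalDegree_eq_zero_iff_eq_C`).

`exists_lin_of_dvd`: for instance by `Polynomial.prod_multiset_root_eq_finset_root` or
`(Finset.univ.prod ..)` and unique factorisation: the divisors of a product of powers of primes
(`exists_dvd_and_dvd_of_dvd_mul`, `(dvd_prime_pow ..)`) by induction on the finite set.
-/

namespace Pool.MP_70e04f_ag.Hal

open MvPolynomial Pool.MP_70e04f_ag.Hex Pool.MP_70e04f_ag.Add Pool.MP_70e04f_ag.Nine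

/-- The divisors of a product of linear factors, over a finite set. -/
private lemma exists_lin_aux {τ : Type*} [DecidableEq τ] {s : τ → ℝ} {b : τ → ℕ} {c : ℝ}
    (hc : c ≠ 0) (S : Finset τ) :
    ∀ P : Polynomial ℝ,
      P ∣ Polynomial.C c * ∏ t ∈ S, (Polynomial.X - Polynomial.C (s t)) ^ b t →
      ∃ (c' : ℝ) (a : τ → ℕ), c' ≠ 0 ∧ (∀ t, a t ≤ b t) ∧
        P = Polynomial.C c' * ∏ t ∈ S, (Polynomial.X - Polynomial.C (s t)) ^ a t := by
  induction S using Finset.induction_on with
  | empty =>
    intro P hP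
    rw [Finset.prod_empty, mul_one] at hP
    have hu : IsUnit P := isUnit_of_dvd_unit hP ((isUnit_iff_ne_zero.mpr hc).map Polynomial.C)
    obtain ⟨c', hc', hcP⟩ := Polynomial.isUnit_iff.1 hu
    refine ⟨c', fun _ => 0, hc'.ne_zero, fun t => Nat.zero_le _, ?_⟩
    rw [Finset.prod_empty, mul_one, hcP]
  | insert t0 S ht0 ih =>
    intro P hP
    rw [Finset.prod_insert ht0, ← mul_assoc, mul_comm (Polynomial.C c), mul_assoc] at hP
    obtain ⟨P1, P2, h1, h2, h12⟩ := exists_dvd_and_dvd_of_dvd_mul hP
    obtain ⟨c2, a, hc2, ha, hP2⟩ := ih P2 h2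
    obtain ⟨i, hi, has⟩ := (dvd_prime_pow (Polynomial.prime_X_sub_C (s t0)) _).1 h1
    obtain ⟨u, hu⟩ := has.symm
    obtain ⟨c1, hc1, hcu⟩ := Polynomial.isUnit_iff.1 u.isUnit
    refine ⟨c1 * c2, Function.update a t0 i, mul_ne_zero hc1.ne_zero hc2, ?_, ?_⟩
    · intro t
      rcases eq_or_ne t t0 with rfl | ht
      · rw [Function.update_self]
        exact hi
      · rw [Function.update_of_ne ht]
        exact ha t
    · have h3 : ∏ t ∈ S, (Polynomial.X - Polynomial.C (s t)) ^ (Function.update a t0 i) t =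
          ∏ t ∈ S, (Polynomial.X - Polynomial.C (s t)) ^ a t := by
        refine Finset.prod_congr rfl fun t ht => ?_
        rw [Function.update_of_ne]
        rintro rfl
        exact ht0 ht
      rw [Finset.prod_insert ht0, Function.update_self, h3, h12, hP2, ← hu, ← hcu,
        Polynomial.C_mul]
      ring

/-- The divisors of a product of linear factors. -/
lemma exists_lin_of_dvd {τ : Type*} [Fintype τ] {s : τ → ℝ} {b : τ → ℕ} {c : ℝ} (hc : c ≠ 0)
    {P : Polynomial ℝ} (h : P ∣ Polynomial.C c * lin s b) :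
    ∃ (c' : ℝ) (a : τ → ℕ), c' ≠ 0 ∧ (∀ t, a t ≤ b t) ∧ P = Polynomial.C c' * lin s a := by
  classical
  exact exists_lin_aux hc Finset.univ P h

/-- A constant factor of a polynomial. -/
private lemma nv_C_mul (c : ℝ) (P : Polynomial ℝ) : nv (Polynomial.C c * P) = c * nv P := by
  simp [nv]

/-- One half of the irreducibility. -/
private lemma halphen_unit {ν : ℕ} {s : Fin 9 → ℝ} (h : Tors ν s)
    {g : MvPolynomial (Fin 2) ℝ} {c : ℝ} (hc : c ≠ 0)
    (hg : nod g ∣ Polynomial.C c * lin s (fun _ => ν)) :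
    (nod g).natDegree = 0 ∨ (nod g).natDegree = 9 * ν := by
  obtain ⟨c', a, hc', ha, hga⟩ := exists_lin_of_dvd hc hg
  have h1 : nv (lin s a) = 0 := by
    have h2 := nv_nod g
    rw [hga, nv_C_mul] at h2
    exact (mul_eq_zero.1 h2).resolve_left hc'
  have h3 : (nod g).natDegree = ∑ t, a t := by
    rw [hga, Polynomial.natDegree_C_mul hc', natDegree_lin]
  rcases h.only a ha h1 with h4 | h4
  · left
    rw [h3]
    exact Finset.sum_eq_zero fun t _ => h4 t
  · right
    rw [h3, Finset.sum_congr rfl fun t _ => h4 t]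
    simp

/-- A polynomial of total degree zero is a unit. -/
private lemma isUnit_of_totalDegree {g : MvPolynomial (Fin 2) ℝ} (hg : g ≠ 0)
    (h : g.totalDegree = 0) : IsUnit g := by
  rw [totalDegree_eq_zero_iff_eq_C] at h
  rw [h]
  have h5 : coeff 0 g ≠ 0 := by
    intro h6
    apply hg
    rw [h, h6, C_0]
  exact (isUnit_iff_ne_zero.mpr h5).map C

/-- The members of the pencil are irreducible. -/
theorem halphen_irr {ν : ℕ} {s : Fin 9 → ℝ} (h : Tors ν s) (hν : 1 ≤ ν)
    {f : MvPolynomial (Fin 2) ℝ} {c : ℝ} (hf : f ∈ Lsys (3 * ν + 1) (fun _ => ν) (npt s))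
    (hc : c ≠ 0) (hn : nod f = Polynomial.C c * lin s (fun _ => ν)) :
    Irreducible f ∧ f.totalDegree = 3 * ν ∧ coeff (mon 0 (3 * ν)) f ≠ 0 ∧
      ∀ t, f ∉ pt (npt s t) ^ (ν + 1) := by
  classical
  have hlin : (lin s (fun _ => ν)).Monic := lin_monic s _
  have hlindeg : (lin s (fun _ => ν)).natDegree = 9 * ν := by
    rw [natDegree_lin]
    simp
  have hfdeg : f.totalDegree ≤ 3 * ν := mem_range_tri.1 (Submodule.mem_inf.1 hf).1
  have htop : coeff (mon 0 (3 * ν)) f = c := by
    rw [← coeff_nod_top hfdeg, hn, Polynomial.coeff_C_mul,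
      show 3 * (3 * ν) = (lin s (fun _ => ν)).natDegree by rw [hlindeg]; ring]
    have h1 : (lin s (fun _ => ν)).coeff (lin s (fun _ => ν)).natDegree = 1 := hlin
    rw [h1, mul_one]
  have hndeg : (nod f).natDegree = 9 * ν := by
    rw [hn, Polynomial.natDegree_C_mul hc, hlindeg]
  have hn0 : nod f ≠ 0 := by
    intro h0
    rw [h0, Polynomial.natDegree_zero] at hndeg
    omega
  have htd : f.totalDegree = 3 * ν := by
    apply le_antisymm hfdeg
    have h1 : mon 0 (3 * ν) ∈ f.support := by
      rw [mem_support_iff, htop]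
      exact hc
    have h2 := le_totalDegree h1
    have h4 : (mon 0 (3 * ν)).sum (fun _ e => e) = (mon 0 (3 * ν)).degree := rfl
    rw [h4, degree_mon, zero_add] at h2
    exact h2
  refine ⟨⟨?_, ?_⟩, htd, ?_, ?_⟩
  · intro hu
    have h1 : IsUnit (nod f) := hu.map nod
    have h2 := Polynomial.natDegree_eq_zero_of_isUnit h1
    omega
  · intro g g' hgg
    have hf0 : f ≠ 0 := by
      rintro rfl
      simp at htop
      exact hc htop.symm
    have hg0 : g ≠ 0 := by
      rintro rfl
      exact hf0 (by rw [hgg, zero_mul])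
    have hg'0 : g' ≠ 0 := by
      rintro rfl
      exact hf0 (by rw [hgg, mul_zero])
    have hmul : nod g * nod g' = nod f := by rw [← map_mul, ← hgg]
    have hcg : nod g ≠ 0 := by
      intro h0
      rw [h0, zero_mul] at hmul
      exact hn0 hmul.symm
    have hch : nod g' ≠ 0 := by
      intro h0
      rw [h0, mul_zero] at hmul
      exact hn0 hmul.symm
    have hd1 : (nod g).natDegree + (nod g').natDegree = 9 * ν := by
      rw [← Polynomial.natDegree_mul hcg hch, hmul, hndeg]
    have hd2 : g.totalDegree + g'.totalDegree = 3 * ν := by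
      rw [← totalDegree_mul_of_isDomain hg0 hg'0, ← hgg]
      exact htd
    have hd3 := natDegree_nod_le g
    have hd4 := natDegree_nod_le g'
    have hdiv : nod g ∣ Polynomial.C c * lin s (fun _ => ν) := by
      rw [← hn, ← hmul]
      exact Dvd.intro _ rfl
    rcases halphen_unit h hc hdiv with h5 | h5
    · left
      exact isUnit_of_totalDegree hg0 (by omega)
    · right
      exact isUnit_of_totalDegree hg'0 (by omega)
  · rw [htop]
    exact hc
  · intro t ht
    have h1 : (Polynomial.X - Polynomial.C (s t)) ^ (ν + 1) ∣ nod f := dvd_nod ht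
    rw [hn, lin, ← Finset.mul_prod_erase Finset.univ _ (Finset.mem_univ t), ← mul_assoc,
      mul_comm (Polynomial.C c), pow_succ, mul_assoc] at h1
    have h2 := (mul_dvd_mul_iff_left (pow_ne_zero _ (Polynomial.X_sub_C_ne_zero (s t)))).1 h1
    rw [Polynomial.dvd_iff_isRoot, Polynomial.IsRoot.def, Polynomial.eval_mul,
      Polynomial.eval_prod, Polynomial.eval_C] at h2
    revert h2
    refine mul_ne_zero hc (Finset.prod_ne_zero_iff.mpr ?_)
    intro t' ht'
    rw [Polynomial.eval_pow]
    apply pow_ne_zero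
    rw [Polynomial.eval_sub, Polynomial.eval_X, Polynomial.eval_C]
    intro h3
    exact (Finset.ne_of_mem_erase ht') (h.inj (by linarith))

end Pool.MP_70e04f_ag.Hal
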