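import Pool.Agent.Lib_MP_70e04f_hal.NodE
import Pool.Agent.Lib_MP_70e04f_hal.NodF

/-!
# An irreducible curve with a smooth real point (piece NODG)

PAPER PROOF. (1) There is `f ∈ Lsys (3 ν + 1) ν` with `nod f ≠ 0`: otherwise
`Lsys (3 ν + 1) ν ⊓ ker nod = Lsys (3 ν + 1) ν`, of dimension `≥ 2` (`two_le_hT`), but
`finrank_nod_ker` and `hT_small` (`j = ν - 1`) give the bound `1`. By `nod_eq_lin`
`nod f = C c * lin s ν`, `c ≠ 0`.

(2) The polynomial `B = ncu * pderiv 1 f - ν * f * pderiv 1 ncu` is not zero: `nod B =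
- ν * nod f * nod (2 y) = - 2 ν * nod f * (X (X ^ 2 + 1)) ≠ 0` (`nod_ncu`, `pderiv 1 ncu = 2 y`).
So `ncu * B ≠ 0` and there is a point `P` with `eval P (ncu * B) ≠ 0` (`MvPolynomial.funext`).

(3) Let `u = eval P ncu ≠ 0`, `w = eval P f`, `g = C (u ^ ν) * f - C w * ncu ^ ν`. Then
`g ∈ Lsys (3 ν + 1) ν` (`ncu ^ ν` has degree `3 ν` and is in `pt (npt s t) ^ ν` by `ncu_mem`),
`nod g = C (u ^ ν * c) * lin s ν`, so `halphen_irr` applies to `g`, and `eval P g = 0`. Finally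
`eval P (pderiv 1 g) = u ^ ν * eval P (pderiv 1 f) - w * ν * u ^ (ν - 1) * eval P (pderiv 1 ncu) =
u ^ (ν - 1) * eval P B ≠ 0`.
-/

namespace Pool.MP_70e04f_ag.Hal

open MvPolynomial Pool.MP_70e04f_ag.Hex Pool.MP_70e04f_ag.Add Pool.MP_70e04f_ag.Nine

private lemma nodg_exists_ne {ν : ℕ} {s : Fin 9 → ℝ} (h : Tors ν s) (hν : 1 ≤ ν) :
    ∃ f ∈ Lsys (3 * ν + 1) (fun _ => ν) (npt s), nod f ≠ 0 := by
  by_contra hcon
  push Not at hcon
  have h1 : Lsys (3 * ν + 1) (fun _ => ν) (npt s) ⊓ LinearMap.ker nod.toLinearMap =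
      Lsys (3 * ν + 1) (fun _ => ν) (npt s) := by
    apply inf_eq_left.2
    intro f hf
    rw [LinearMap.mem_ker]
    exact hcon f hf
  have h2 := finrank_nod_ker (s := s) (N := 3 * ν + 1) (fun _ => ν)
  rw [h1] at h2
  have h3 := two_le_hT h hν
  have h4 := hT_small h (j := ν - 1) (by omega)
  have h5 : 3 * ν + 1 - 3 = 3 * (ν - 1) + 1 := by omega
  rw [h5] at h2
  unfold hT at h3
  exact absurd (h3.trans (h2.trans h4)) (by norm_num)

private lemma nodg_pderiv_ncu : pderiv 1 ncu = C 2 * X 1 := by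
  unfold ncu
  rw [map_add, map_sub, pderiv_pow, pderiv_pow, pderiv_pow, pderiv_X_self, pderiv_X_of_ne (by decide)]
  simp only [mul_zero, sub_zero, add_zero, Nat.cast_ofNat, Nat.add_one_sub_one, pow_one, mul_one]
  rw [map_ofNat C 2]

private lemma nodg_nod_X1 : nod (X 1) = Polynomial.X * (Polynomial.X ^ 2 + 1) := by
  unfold nod
  rw [aeval_X]
  rfl

private lemma nodg_ncu_pow {ν : ℕ} (s : Fin 9 → ℝ) :
    ncu ^ ν ∈ Lsys (3 * ν + 1) (fun _ => ν) (npt s) := by
  unfold Lsys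
  rw [Submodule.mem_inf]
  constructor
  · rw [mem_range_tri]
    refine (totalDegree_pow _ _).trans ?_
    rw [totalDegree_ncu]
    omega
  · rw [mem_vanish]
    intro t
    exact Ideal.pow_mem_pow (ncu_mem s t) ν

/-- An irreducible member of the Halphen pencil with a smooth real point. -/
theorem exists_halphen {ν : ℕ} {s : Fin 9 → ℝ} (h : Tors ν s) (hν : 1 ≤ ν) :
    ∃ (f : MvPolynomial (Fin 2) ℝ) (P : Fin 2 → ℝ), IsCurve (3 * ν) (fun _ => ν) (npt s) f P := by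
  obtain ⟨f, hf, hnf⟩ := nodg_exists_ne h hν
  have hsum : ∑ _t : Fin 9, ν = 3 * (3 * ν + 1 - 1) := by
    rw [Finset.sum_const, Finset.card_univ, Fintype.card_fin, smul_eq_mul]
    omega
  obtain ⟨c, hc⟩ := nod_eq_lin h.inj hsum hf
  have hc0 : c ≠ 0 := by
    rintro rfl
    rw [Polynomial.C_0, zero_mul] at hc
    exact hnf hc
  have hν0 : (ν : ℝ) ≠ 0 := by
    have : ν ≠ 0 := by omega
    exact_mod_cast this
  -- the auxiliary polynomial
  obtain ⟨B, hB⟩ : ∃ B : MvPolynomial (Fin 2) ℝ,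
      B = ncu * pderiv 1 f - C (ν : ℝ) * f * pderiv 1 ncu := ⟨_, rfl⟩
  have hB0 : B ≠ 0 := by
    intro h0
    have h1 : nod B = 0 := by rw [h0, map_zero]
    rw [hB, map_sub, map_mul, map_mul, map_mul, nod_ncu, zero_mul, zero_sub, nodg_pderiv_ncu,
      map_mul, nodg_nod_X1] at h1
    have h2 : nod (C (ν : ℝ)) = Polynomial.C (ν : ℝ) := by
      have := nod.commutes (ν : ℝ)
      exact this
    have h3 : nod (C (2 : ℝ)) = Polynomial.C (2 : ℝ) := by
      have := nod.commutes (2 : ℝ)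
      exact this
    rw [h2, h3, neg_eq_zero] at h1
    have h4 : (Polynomial.X ^ 2 + 1 : Polynomial ℝ) ≠ 0 := by
      have h5 : (Polynomial.X ^ 2 + 1 : Polynomial ℝ).eval 0 = 1 := by simp
      intro h6
      rw [h6, Polynomial.eval_zero] at h5
      exact zero_ne_one h5
    refine mul_ne_zero (mul_ne_zero ?_ hnf) (mul_ne_zero ?_ (mul_ne_zero Polynomial.X_ne_zero h4)) h1
    · exact Polynomial.C_ne_zero.2 hν0
    · exact Polynomial.C_ne_zero.2 two_ne_zero
  obtain ⟨P, hP⟩ : ∃ P : Fin 2 → ℝ, eval P (ncu * B) ≠ 0 := by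
    by_contra hcon
    push Not at hcon
    apply mul_ne_zero ncu_ne_zero hB0
    apply MvPolynomial.funext
    intro x
    rw [hcon x, map_zero]
  rw [map_mul] at hP
  have hu : eval P ncu ≠ 0 := left_ne_zero_of_mul hP
  have hBP : eval P B ≠ 0 := right_ne_zero_of_mul hP
  set u : ℝ := eval P ncu with hu_def
  set w : ℝ := eval P f with hw_def
  obtain ⟨g, hg⟩ : ∃ g : MvPolynomial (Fin 2) ℝ, g = C (u ^ ν) * f - C w * ncu ^ ν := ⟨_, rfl⟩
  have hgm : g ∈ Lsys (3 * ν + 1) (fun _ => ν) (npt s) := by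
    rw [hg, C_mul', C_mul']
    exact Submodule.sub_mem _ (Submodule.smul_mem _ _ hf) (Submodule.smul_mem _ _ (nodg_ncu_pow s))
  have hgn : nod g = Polynomial.C (u ^ ν * c) * lin s (fun _ => ν) := by
    have h1 : nod (C (u ^ ν)) = Polynomial.C (u ^ ν) := nod.commutes (u ^ ν)
    rw [hg, map_sub, map_mul, map_mul, map_pow nod ncu ν, nod_ncu, zero_pow (by omega), mul_zero, sub_zero,
      h1, hc, ← mul_assoc, ← Polynomial.C_mul]
  obtain ⟨hirr, hdeg, htop, hex⟩ := halphen_irr h hν hgm (mul_ne_zero (pow_ne_zero _ hu) hc0) hgn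
  refine ⟨g, P, ⟨hgm, hirr, hdeg, htop, hex, ?_, Or.inr ?_⟩⟩
  · rw [hg]
    simp only [map_sub, map_mul, map_pow, eval_C]
    rw [← hu_def, ← hw_def]
    ring
  · have h1 : eval P (pderiv 1 g) = u ^ (ν - 1) * eval P B := by
      rw [hg, hB, map_sub, pderiv_C_mul, pderiv_C_mul, pderiv_pow]
      simp only [map_sub, map_mul, map_pow, eval_C, map_natCast]
      rw [← hu_def, ← hw_def]
      have h2 : u ^ ν = u ^ (ν - 1) * u := by
        rw [← pow_succ]
        congr 1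
        omega
      rw [h2]
      ring
    rw [h1]
    exact mul_ne_zero (pow_ne_zero _ hu) hBP

end Pool.MP_70e04f_ag.Hal
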