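import Pool.Agent.Lib_MP_70e04f_hal.Defs

/-!
# Adding points to a system of known dimension (piece SUMOK)

PAPER PROOF. `sum_ok` is the end of the proof of `class_small` in `Lib_MP_70e04f_nine/Class.lean`
(after `refine ⟨Sum.elim q p, ?_⟩`).

`ok_of_le_one`: apply `sum_ok` with suitable `p`. If all `mm i = 0` any `p` will do (the second term
on the right is `0`). If `hT N mT q = 0` any `p` will do. Otherwise `hT N mT q = 1` and some
`mm i0 ≥ 1`: let `F0 ≠ 0` be in `Lsys N mT q`; every element is a multiple of `F0`. Choose a point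
`P` with `eval P F0 ≠ 0` (`MvPolynomial.funext`) and `p i = P` for all `i`. An element
`F = a • F0` of `vanish mm p` vanishes at `P` (it is in `pt P ^ mm i0 ≤ pt P`), so `a = 0`:
`Lsys N mT q ⊓ vanish mm p = ⊥` has dimension `0`.
-/

namespace Pool.MP_70e04f_ag.Hal

open MvPolynomial Pool.MP_70e04f_ag.Hex Pool.MP_70e04f_ag.Add Pool.MP_70e04f_ag.Nine

/-- Joining the points. -/
theorem sum_ok {τ : Type*} [Fintype τ] {n N : ℕ} {mT : τ → ℕ} {q : τ → Fin 2 → ℝ} (mm : Fin n → ℕ)
    (h0 : 2 * hT N mT q + ∑ t, mT t * (mT t + 1) = N * (N + 1)) (p : Fin n → Fin 2 → ℝ)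
    (hp : Module.finrank ℝ ↥(Lsys N mT q ⊓ vanish mm p) ≤
      hT N mT q - Fintype.card (Σ i : Fin n, ↥(tri (mm i)))) :
    OK (tri N) (Sum.elim mT mm) := by
  classical
  refine ⟨Sum.elim q p, ?_⟩
  have h1 := hT_eq N (Sum.elim mT mm) (Sum.elim q p)
  have h2 : Lsys N (Sum.elim mT mm) (Sum.elim q p) = Lsys N mT q ⊓ vanish mm p := by
    ext F
    unfold Lsys
    rw [Submodule.mem_inf, Submodule.mem_inf, Submodule.mem_inf, mem_vanish, mem_vanish,
      mem_vanish]
    constructor
    · rintro ⟨h1, h2⟩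
      exact ⟨⟨h1, fun t => h2 (Sum.inl t)⟩, fun i => h2 (Sum.inr i)⟩
    · rintro ⟨⟨h1, h2⟩, h3⟩
      refine ⟨h1, ?_⟩
      rintro (t | i)
      · exact h2 t
      · exact h3 i
  have h3 : hT N (Sum.elim mT mm) (Sum.elim q p) ≤
      hT N mT q - Fintype.card (Σ i : Fin n, ↥(tri (mm i))) := by
    unfold hT
    rw [h2]
    exact hp
  have h5 := two_card_tri N
  have h6 : 2 * Fintype.card (Σ t : τ, ↥(tri (mT t))) = ∑ t, mT t * (mT t + 1) := by
    rw [Fintype.card_sigma, Finset.mul_sum]
    refine Finset.sum_congr rfl fun t _ => ?_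
    rw [Fintype.card_coe, two_card_tri]
  have h7 : Fintype.card (Σ x : τ ⊕ Fin n, ↥(tri (Sum.elim mT mm x))) =
      Fintype.card (Σ t : τ, ↥(tri (mT t))) + Fintype.card (Σ i : Fin n, ↥(tri (mm i))) := by
    rw [Fintype.card_sigma, Fintype.card_sigma, Fintype.card_sigma, Fintype.sum_sum_type]
    rfl
  unfold Good
  rw [← h1, Fintype.card_coe, h7]
  omega

/-- A system of dimension at most one. -/
theorem ok_of_le_one {τ : Type*} [Fintype τ] {n N : ℕ} {mT : τ → ℕ} {q : τ → Fin 2 → ℝ}
    (mm : Fin n → ℕ) (h0 : 2 * hT N mT q + ∑ t, mT t * (mT t + 1) = N * (N + 1))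
    (h1 : hT N mT q ≤ 1) : OK (tri N) (Sum.elim mT mm) := by
  classical
  haveI hfd : FiniteDimensional ℝ ↥(Lsys N mT q) := by
    unfold Lsys
    infer_instance
  by_cases hz : ∀ i, mm i = 0
  · apply sum_ok mm h0 (fun _ => 0)
    have e : Fintype.card (Σ i : Fin n, ↥(tri (mm i))) = 0 := by
      rw [Fintype.card_sigma]
      refine Finset.sum_eq_zero fun i _ => ?_
      have := two_card_tri (mm i)
      rw [Fintype.card_coe]
      rw [hz i] at this ⊢
      omega
    rw [e, Nat.sub_zero]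
    unfold hT
    exact Submodule.finrank_mono (t := Lsys N mT q) inf_le_left
  · push_neg at hz
    obtain ⟨i0, hi0⟩ := hz
    rcases Nat.eq_zero_or_pos (hT N mT q) with h2 | h2
    · apply sum_ok mm h0 (fun _ => 0)
      rw [h2, Nat.zero_sub, Nat.le_zero]
      have h3 : Module.finrank ℝ ↥(Lsys N mT q ⊓ vanish mm (fun _ => 0)) ≤
          Module.finrank ℝ ↥(Lsys N mT q) := Submodule.finrank_mono inf_le_left
      unfold hT at h2
      omega
    · have h3 : Module.finrank ℝ ↥(Lsys N mT q) = 1 := by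
        unfold hT at h1 h2
        omega
      obtain ⟨F0, hF0, hspan⟩ := finrank_eq_one_iff'.1 h3
      have hF0' : (F0 : MvPolynomial (Fin 2) ℝ) ≠ 0 := by
        intro h
        exact hF0 (Subtype.ext h)
      obtain ⟨P, hP⟩ : ∃ P : Fin 2 → ℝ, eval P (F0 : MvPolynomial (Fin 2) ℝ) ≠ 0 := by
        by_contra hcon
        push_neg at hcon
        apply hF0'
        apply MvPolynomial.funext
        intro x
        rw [hcon x, map_zero]
      apply sum_ok mm h0 (fun _ => P)
      have h4 : Lsys N mT q ⊓ vanish mm (fun _ => P) = ⊥ := by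
        rw [eq_bot_iff]
        intro F hF
        rw [Submodule.mem_bot]
        obtain ⟨hF1, hF2⟩ := Submodule.mem_inf.1 hF
        obtain ⟨a, ha⟩ := hspan ⟨F, hF1⟩
        have ha' : a • (F0 : MvPolynomial (Fin 2) ℝ) = F := congrArg Subtype.val ha
        have h5 := mem_vanish.1 hF2 i0
        have h6 : eval P F = 0 := RingHom.mem_ker.1 (Ideal.pow_le_self hi0 h5)
        rw [← ha', MvPolynomial.smul_eval] at h6
        rcases mul_eq_zero.1 h6 with h7 | h7
        · rw [← ha', h7, zero_smul]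
        · exact absurd h7 hP
      rw [h4, finrank_bot]
      exact Nat.zero_le _

end Pool.MP_70e04f_ag.Hal
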