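import Pool.Agent.Lib_MP_70e04f_hal.Ang
import Pool.Agent.Lib_MP_70e04f_hal.NodG
import Pool.Agent.Lib_MP_70e04f_hal.Flat3
import Pool.Agent.Lib_MP_70e04f_hal.SumOK
import Pool.Agent.Lib_MP_70e04f_hal.HNum

/-!
# Adding small points along a Halphen pencil
-/

namespace Pool.MP_70e04f_ag.Hal

open MvPolynomial Pool.MP_70e04f_ag.Hex Pool.MP_70e04f_ag.Add Pool.MP_70e04f_ag.Nine

/-- Fewer conditions. -/
lemma hT_anti {τ : Type*} {N : ℕ} {m m' : τ → ℕ} (q : τ → Fin 2 → ℝ) (h : ∀ t, m t ≤ m' t) :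
    hT N m' q ≤ hT N m q := by
  unfold hT
  apply Submodule.finrank_mono
  intro F hF
  refine ⟨hF.1, ?_⟩
  have h1 := hF.2
  rw [SetLike.mem_coe, mem_vanish] at h1 ⊢
  intro t
  exact Ideal.pow_le_pow_right (h t) (h1 t)

section
variable {d κ c : ℕ} {mT : Fin 9 → ℕ}

lemma sum_sub_nine (hc : ∀ t, c ≤ mT t) : ∑ t, (mT t - c) + 9 * c = ∑ t, mT t := by
  have h1 : ∑ t : Fin 9, c = 9 * c := by simp
  rw [← h1, ← Finset.sum_add_distrib]
  exact Finset.sum_congr rfl fun t _ => Nat.sub_add_cancel (hc t)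

/-- Subtracting a multiple of the anticanonical class. -/
lemma cls (h3 : ∀ U : Finset (Fin 9), U.card ≤ 3 → ∑ t ∈ U, mT t ≤ d)
    (hκ : ∑ t, mT t + κ = 3 * d) (hκ1 : 1 ≤ κ) (hc : ∀ t, c ≤ mT t) :
    3 * c ≤ d ∧ (∀ U : Finset (Fin 9), U.card ≤ 3 → ∑ t ∈ U, (mT t - c) ≤ d - 3 * c) ∧
      Std (d + 1 - 3 * c) (fun t => mT t - c) ∧
      ∑ t, (mT t - c) + κ + 3 = 3 * (d + 1 - 3 * c) := by
  have hs := sum_sub_nine hc
  have h0 : 3 * c ≤ d := by
    have h1 := h3 {0, 1, 2} (by decide)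
    rw [Finset.sum_insert (by decide), Finset.sum_insert (by decide), Finset.sum_singleton] at h1
    have a0 := hc 0
    have a1 := hc 1
    have a2 := hc 2
    omega
  have hU : ∀ U : Finset (Fin 9), U.card ≤ 3 → ∑ t ∈ U, (mT t - c) ≤ d - 3 * c := by
    intro U hU
    obtain ⟨V, hUV, hV⟩ := Finset.exists_superset_card_eq hU (by simp)
    have h1 := h3 V hV.le
    have h2 : ∑ t ∈ V, (mT t - c) + V.card * c = ∑ t ∈ V, mT t := by
      rw [← smul_eq_mul, ← Finset.sum_const, ← Finset.sum_add_distrib]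
      exact Finset.sum_congr rfl fun t _ => Nat.sub_add_cancel (hc t)
    rw [hV] at h2
    have h4 : ∑ t ∈ U, (mT t - c) ≤ ∑ t ∈ V, (mT t - c) := Finset.sum_le_sum_of_subset hUV
    omega
  refine ⟨h0, hU, ⟨?_, ?_⟩, ?_⟩
  · intro U h
    have h1 := hU U h
    change ∑ t ∈ U, (mT t - c) + 1 ≤ _
    omega
  · change ∑ t, (mT t - c) + 3 ≤ _
    omega
  · omega

/-- The exact dimension. -/
lemma cls_ex {s : Fin 9 → ℝ} (hs : Function.Injective s)
    (h3 : ∀ U : Finset (Fin 9), U.card ≤ 3 → ∑ t ∈ U, mT t ≤ d)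
    (hκ : ∑ t, mT t + κ = 3 * d) (hκ1 : 1 ≤ κ) (hc : ∀ t, c ≤ mT t) :
    2 * hT (d + 1 - 3 * c) (fun t => mT t - c) (npt s) +
      ∑ t, (mT t - c) * (mT t - c + 1) = (d + 1 - 3 * c) * (d + 1 - 3 * c + 1) := by
  obtain ⟨-, -, h1, h2⟩ := cls h3 hκ hκ1 hc
  have h4 := hT_nod hs h1 (Or.inl (by omega))
  have h5 := hT_ge (d + 1 - 3 * c) (fun t => mT t - c) (npt s)
  exact le_antisymm h4 h5

/-- Adding a multiple of the anticanonical class. -/
lemma cls_diff {s : Fin 9 → ℝ} (hs : Function.Injective s)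
    (h3 : ∀ U : Finset (Fin 9), U.card ≤ 3 → ∑ t ∈ U, mT t ≤ d)
    (hκ : ∑ t, mT t + κ = 3 * d) (hκ1 : 1 ≤ κ) (hc : ∀ t, c ≤ mT t) (a c1 : ℕ)
    (hac : c1 + a = c) :
    hT (d + 1 - 3 * c1) (fun t => mT t - c1) (npt s) =
      hT (d + 1 - 3 * c) (fun t => mT t - c) (npt s) + a * κ := by
  have hc1 : ∀ t, c1 ≤ mT t := fun t => by have := hc t; omega
  have e0 := cls_ex hs h3 hκ hκ1 hc
  have e1 := cls_ex hs h3 hκ hκ1 hc1
  obtain ⟨h0, -, -, hK⟩ := cls h3 hκ hκ1 hc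
  generalize hT (d + 1 - 3 * c1) (fun t => mT t - c1) (npt s) = E1 at *
  generalize hT (d + 1 - 3 * c) (fun t => mT t - c) (npt s) = E0 at *
  obtain ⟨N, hN⟩ : ∃ N, d + 1 - 3 * c = N := ⟨_, rfl⟩
  have hN1 : d + 1 - 3 * c1 = N + 3 * a := by omega
  rw [hN] at e0 hK
  rw [hN1] at e1
  have e2 : ∑ t, (mT t - c1) * (mT t - c1 + 1) = ∑ t, (mT t - c) * (mT t - c + 1) +
      2 * a * ∑ t, (mT t - c) + 9 * (a * (a + 1)) := by
    have h9 : 9 * (a * (a + 1)) = ∑ t : Fin 9, a * (a + 1) := by simp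
    rw [h9, Finset.mul_sum, ← Finset.sum_add_distrib, ← Finset.sum_add_distrib]
    refine Finset.sum_congr rfl fun t _ => ?_
    have h1 := hc t
    obtain ⟨y, hy⟩ : ∃ y, mT t - c = y := ⟨_, rfl⟩
    have h2 : mT t - c1 = y + a := by omega
    rw [h2, hy]
    ring
  rw [e2] at e1
  generalize ∑ t, (mT t - c) * (mT t - c + 1) = A at *
  generalize ∑ t, (mT t - c) = B at *
  have e3 : 2 * a * B + 2 * a * κ + 6 * a = 6 * a * N := by
    have : 2 * a * (B + κ + 3) = 2 * a * (3 * N) := by rw [hK]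
    linarith
  have e4 : 2 * E1 = 2 * (E0 + a * κ) := by
    zify at *
    linarith
  omega

end

/-- Adding small points along a Halphen pencil. -/
theorem tri_halphen {n : ℕ} (m ν κ c d : ℕ) (mT : Fin 9 → ℕ) (mm : Fin n → ℕ) (hm : 1 ≤ m)
    (hmm : ∀ i, mm i ≤ m) (h3 : ∀ U : Finset (Fin 9), U.card ≤ 3 → ∑ t ∈ U, mT t ≤ d)
    (hκ : ∑ t, mT t + κ = 3 * d) (hκ1 : 1 ≤ κ) (hc : ∀ t, c ≤ mT t) (t0 : Fin 9)
    (ht0 : mT t0 = c) (hL : 8 * m ^ 2 + 3 * m ≤ ν * κ)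
    (hL2 : 3 * κ ^ 2 + κ + 2 * m + 6 ≤ 2 * (ν * κ)) (hW : 2 * m * ν ≤ c) :
    OK (tri (d + 1)) (Sum.elim mT mm) := by
  classical
  have hν : 1 ≤ ν := by
    rcases Nat.eq_zero_or_pos ν with h | h
    · subst h; omega
    · exact h
  have hνκ : κ + 1 ≤ ν := by
    by_contra hcon
    have h1 : ν * κ ≤ κ * κ := Nat.mul_le_mul_right κ (by omega)
    nlinarith
  obtain ⟨s, hs⟩ := exists_tors ν hν
  obtain ⟨f, P, hf⟩ := exists_halphen hs hν
  have hC := two_le_hT hs hν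
  obtain ⟨Q, -, hQ1, hQ2, hQ3⟩ := exists_rows2 (N := d + 1) (k := 3 * ν) (by omega) (m := mT) hf hC
  -- the dimensions
  obtain ⟨X, hX⟩ : ∃ X : ℕ → ℕ, X = fun c1 => hT (d + 1 - 3 * c1) (fun t => mT t - c1) (npt s) :=
    ⟨_, rfl⟩
  have hrow : ∀ j, rowc Q j + X ((j + 1) * ν) = X (j * ν) := by
    intro j
    have h1 := hQ1 j
    have e1 : ∀ j, j * (3 * ν) = 3 * (j * ν) := fun j => by ring
    rw [e1, e1] at h1
    rw [hX]
    exact h1
  have hdiff : ∀ a c1 c2, c2 ≤ c → c1 + a = c2 → X c1 = X c2 + a * κ := by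
    intro a c1 c2 h2 h1
    rw [hX]
    exact cls_diff hs.inj h3 hκ hκ1 (fun t => h2.trans (hc t)) a c1 h1
  -- the class without multiples of the anticanonical class
  obtain ⟨g, hg⟩ : ∃ g, d = 3 * c + g := by
    obtain ⟨h0, -⟩ := cls h3 hκ hκ1 hc
    exact ⟨d - 3 * c, by omega⟩
  obtain ⟨x, hx⟩ : ∃ x : Fin 9 → ℕ, x = fun t => mT t - c := ⟨_, rfl⟩
  obtain ⟨-, hx3, hxStd, hxK⟩ := cls h3 hκ hκ1 hc
  have eg : d - 3 * c = g := by omega
  have eg1 : d + 1 - 3 * c = g + 1 := by omega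
  rw [eg] at hx3
  rw [eg1] at hxK hxStd
  have hxκ : ∑ t, x t + κ = 3 * g := by rw [hx]; simp only; omega
  have hx0 : x t0 = 0 := by rw [hx]; simp only; omega
  have hgκ : g ≤ 3 * κ := deg_le hx0 (by rw [hx]; exact hx3) hxκ
  have hsq : g ^ 2 ≤ ∑ t, x t ^ 2 + κ ^ 2 := sq_le hx0 hxκ
  have hXc : 2 * X c ≤ κ ^ 2 + κ + 2 := by
    have h1 := cls_ex hs.inj h3 hκ hκ1 hc
    rw [eg1] at h1
    have h2 : X c = hT (g + 1) (fun t => mT t - c) (npt s) := by rw [hX]; simp only; rw [eg1]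
    rw [← h2] at h1
    have h4 : ∑ t, (mT t - c) * (mT t - c + 1) = ∑ t, x t ^ 2 + ∑ t, x t := by
      rw [← Finset.sum_add_distrib, hx]
      exact Finset.sum_congr rfl fun t _ => by ring
    rw [h4] at h1
    have h5 : (g + 1) * (g + 1 + 1) = g ^ 2 + 3 * g + 2 := by ring
    rw [h5] at h1
    omega
  -- the number of long rows
  obtain ⟨W, hWdef⟩ : ∃ W, W = c / ν := ⟨_, rfl⟩
  have hW1 : W * ν ≤ c := by rw [hWdef]; exact Nat.div_mul_le_self c ν
  have hW2 : c < (W + 1) * ν := by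
    rw [hWdef, mul_comm]
    exact Nat.lt_mul_div_succ c hν
  have hW3 : 2 * m ≤ W := by
    rw [hWdef]
    exact (Nat.le_div_iff_mul_le hν).2 hW
  obtain ⟨b, hb⟩ : ∃ b, (W + 1) * ν = c + b := ⟨(W + 1) * ν - c, by omega⟩
  have hb1 : 1 ≤ b := by omega
  have eW : (W + 1) * ν = W * ν + ν := by ring
  have eW2 : (W + 1 + 1) * ν = W * ν + 2 * ν := by ring
  -- the long rows
  have hlong : ∀ j, j < W → rowc Q j = ν * κ := by
    intro j hj
    have h1 := hrow j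
    have h2 : (j + 1) * ν ≤ W * ν := Nat.mul_le_mul_right ν hj
    have h4 := hdiff ν (j * ν) ((j + 1) * ν) (by omega) (by ring)
    omega
  -- the last rows
  have hXW : X (W * ν) = X c + (ν - b) * κ := hdiff (ν - b) (W * ν) c le_rfl (by omega)
  have hz2 : ∀ y, (W + 2) * ν ≤ y → X y = 0 := by
    intro y hy
    have e1 : (W + 2) * ν = W * ν + 2 * ν := by ring
    have h1 : d + 1 - 3 * y = 0 := by omega
    rw [hX]
    simp only
    rw [h1]
    exact rows2_hT_zero _ _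
  have hη : X ((W + 1) * ν) = 0 ∨ X ((W + 1) * ν) ≤ X c ∧ b ≤ κ := by
    rcases Nat.lt_or_ge (3 * b) (g + 1) with hlt | hge
    · right
      refine ⟨?_, by omega⟩
      rw [hX]
      simp only
      have h1 := hT_ncu_mul s (d + 1 - 3 * ((W + 1) * ν)) (fun t => mT t - (W + 1) * ν) b
      refine h1.trans ?_
      have e1 : d + 1 - 3 * ((W + 1) * ν) + 3 * b = d + 1 - 3 * c := by omega
      rw [e1]
      apply hT_anti
      intro t
      omega
    · left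
      rw [hX]
      simp only
      have e1 : d + 1 - 3 * ((W + 1) * ν) = 0 := by omega
      rw [e1]
      exact rows2_hT_zero _ _
  have hrowW := hrow W
  have hrowW1 := hrow (W + 1)
  have hzW2 := hz2 ((W + 1 + 1) * ν) (by rw [show W + 2 = W + 1 + 1 from rfl])
  rw [hzW2, Nat.add_zero] at hrowW1
  have hOK : OK Q mm := by
    apply ok_flat m W (ν * κ) Q mm hm hmm hW3 hL hlong
    · intro j hj
      have h1 := hrow j
      rw [hz2 (j * ν) (Nat.mul_le_mul_right ν hj)] at h1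
      omega
    · -- the row `W` is not longer
      rcases Nat.eq_zero_or_pos (rowc Q W) with h0 | h0
      · omega
      · obtain ⟨W', rfl⟩ : ∃ W', W = W' + 1 := ⟨W - 1, by omega⟩
        have h1 := hQ2 W' h0
        have h2 := hlong W' (by omega)
        omega
    · rcases hη with h0 | ⟨h1, h2⟩
      · left
        omega
      · right
        -- the difference of the last two rows
        have h4 : (ν - b) * κ + κ * κ ≥ ν * κ := by
          have : (ν - b) * κ + κ * κ = (ν - b + κ) * κ := by ring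
          rw [this]
          exact Nat.mul_le_mul_right κ (by omega)
        have e1 : κ ^ 2 = κ * κ := sq κ
        omega
  obtain ⟨p, hp⟩ := hQ3 n mm hOK
  have hex := cls_ex (c := 0) hs.inj h3 hκ hκ1 (fun t => Nat.zero_le _)
  simp only [Nat.mul_zero, Nat.sub_zero] at hex
  exact sum_ok mm hex p hp

end Pool.MP_70e04f_ag.Hal
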