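import Pool.Agent.Lib_MP_70e04f_hal.HClass

/-!
# All systems in standard form of large degree
-/

namespace Pool.MP_70e04f_ag.Hal

open MvPolynomial Pool.MP_70e04f_ag.Hex Pool.MP_70e04f_ag.Add Pool.MP_70e04f_ag.Nine

/-- Nine large points and the others. -/
lemma tri_of_nine {n : ℕ} (N : ℕ) (mm : Fin n → ℕ) (α : Fin 9 → Fin n)
    (hα : Function.Injective α)
    (h : OK (tri N) (Sum.elim (fun t => mm (α t))
      (fun i : Fin n => if i ∈ Finset.univ.image α then 0 else mm i))) : OK (tri N) mm := by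
  classical
  have hex : ∀ i : Fin n, i ∈ Finset.univ.image α → ∃ t, α t = i := by
    intro i hi
    rw [Finset.mem_image] at hi
    obtain ⟨t, _, ht⟩ := hi
    exact ⟨t, ht⟩
  refine OK.restrict (fun i : Fin n => if h : i ∈ Finset.univ.image α then
    Sum.inl (hex i h).choose else Sum.inr i) ?_ ?_ ?_ h
  · intro i i' hii
    simp only at hii
    by_cases hi : i ∈ Finset.univ.image α
    · by_cases hi' : i' ∈ Finset.univ.image α
      · rw [dif_pos hi, dif_pos hi'] at hii
        have h1 := Sum.inl_injective hii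
        rw [← (hex i hi).choose_spec, ← (hex i' hi').choose_spec, h1]
      · rw [dif_pos hi, dif_neg hi'] at hii
        exact absurd hii (by simp)
    · by_cases hi' : i' ∈ Finset.univ.image α
      · rw [dif_neg hi, dif_pos hi'] at hii
        exact absurd hii (by simp)
      · rw [dif_neg hi, dif_neg hi'] at hii
        exact Sum.inr_injective hii
  · intro i
    by_cases hi : i ∈ Finset.univ.image α
    · simp only [dif_pos hi, Sum.elim_inl]
      rw [(hex i hi).choose_spec]
    · simp only [dif_neg hi, Sum.elim_inr]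
      rw [if_neg hi]
  · rintro (t | i) ho
    · exfalso
      apply ho
      have hi : α t ∈ Finset.univ.image α := Finset.mem_image_of_mem α (Finset.mem_univ t)
      refine ⟨α t, ?_⟩
      simp only [dif_pos hi]
      congr 1
      exact hα (hex (α t) hi).choose_spec
    · by_cases hi : i ∈ Finset.univ.image α
      · simp only [Sum.elim_inr, if_pos hi]
      · exfalso
        apply ho
        exact ⟨i, by simp only [dif_neg hi]⟩

/-- Multiples of the anticanonical class. -/
theorem tri_anti {n : ℕ} (c : ℕ) (mT : Fin 9 → ℕ) (mm : Fin n → ℕ) (hT : ∀ t, mT t = c) :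
    OK (tri (3 * c + 1)) (Sum.elim mT mm) := by
  have h1 : mT = fun _ => c := funext hT
  subst h1
  let e : Fin 9 → ℝ := fun t => ((t : ℕ) : ℝ) + 2
  have he : Function.Injective e := by
    intro a b hab
    have h1 : ((a : ℕ) : ℝ) = ((b : ℕ) : ℝ) := by simpa [e] using hab
    exact Fin.ext (Nat.cast_injective h1)
  have he0 : ∀ t, 0 < e t := by
    intro t
    have : (0 : ℝ) ≤ ((t : ℕ) : ℝ) := Nat.cast_nonneg _
    simp only [e]
    linarith
  have hstd : Std (3 * c + 1) (fun _ : Fin 9 => c) := by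
    constructor
    · intro U hU
      rw [Finset.sum_const, smul_eq_mul]
      have := Nat.mul_le_mul_right c hU
      omega
    · simp
      omega
  have h2 := hstd.hT_le he he0
  have h3 := hT_ge (3 * c + 1) (fun _ : Fin 9 => c) (cpt e)
  have h4 : ∑ _t : Fin 9, c * (c + 1) = 9 * (c * (c + 1)) := by simp
  rw [h4] at h2 h3
  have h5 : (3 * c + 1) * (3 * c + 1 + 1) = 9 * (c * (c + 1)) + 2 := by ring
  apply ok_of_le_one (q := cpt e) mm
  · rw [h4]
    omega
  · omega

/-- All systems in standard form of large degree. -/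
theorem gen_nine_all {n : ℕ} (m d D κ : ℕ) (mm : Fin n → ℕ) (α : Fin 9 → Fin n)
    (hα : Function.Injective α) (hanti : Antitone fun j => mm (α j)) (hm : 1 ≤ m)
    (hm9 : m ≤ mm (α 8)) (hother : ∀ i, i ∉ Set.range α → mm i ≤ m)
    (hstd : mm (α 0) + mm (α 1) + mm (α 2) ≤ d) (hκ : ∑ j, mm (α j) + κ = 3 * d)
    (hbig : ∑ j, mm (α j) ^ 2 + 3100 * m ^ 3 ≤ d ^ 2 ∨
      780 * m ^ 2 ≤ d ∧ 9400 * m ^ 3 ≤ κ * d ∨ 9400 * m ^ 3 ≤ d)
    (hD : D = d ∨ D ≤ d ∧ (d + 1) * (d + 2) ≤ ∑ i, mm i * (mm i + 1)) : GenExp D mm := by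
  classical
  obtain ⟨μ, hμ⟩ : ∃ μ : ℕ → ℕ, μ = fun j => if h : j < 9 then mm (α ⟨j, h⟩) else 0 := ⟨_, rfl⟩
  have hμα : ∀ j : Fin 9, mm (α j) = μ j := by
    intro j
    rw [hμ]
    simp only [j.2, dif_pos]
  have hμa : Antitone μ := by
    intro a b hab
    rw [hμ]
    simp only
    by_cases hb : b < 9
    · rw [dif_pos hb, dif_pos (lt_of_le_of_lt hab hb)]
      exact hanti (show (⟨a, lt_of_le_of_lt hab hb⟩ : Fin 9) ≤ ⟨b, hb⟩ from hab)
    · rw [dif_neg hb]
      exact Nat.zero_le _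
  have m0 : mm (α 0) = μ 0 := hμα 0
  have m1 : mm (α 1) = μ 1 := hμα 1
  have m2 : mm (α 2) = μ 2 := hμα 2
  have m8 : mm (α 8) = μ 8 := hμα 8
  have e1 : ∑ j, mm (α j) = ∑ j : Fin 9, μ j := Finset.sum_congr rfl fun j _ => hμα j
  have e2 : ∑ j, mm (α j) ^ 2 = ∑ j : Fin 9, μ j ^ 2 :=
    Finset.sum_congr rfl fun j _ => by rw [hμα]
  have e3 := sum9 μ
  have e4 := sum9 (fun j => μ j ^ 2)
  beta_reduce at e4
  have hstd' : μ 0 + μ 1 + μ 2 ≤ d := by omega
  have h3 : ∀ U : Finset (Fin 9), U.card ≤ 3 → ∑ t ∈ U, mm (α t) ≤ d := by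
    intro U hU
    have h1 : ∑ t ∈ U, mm (α t) = ∑ t ∈ U, μ t := Finset.sum_congr rfl fun j _ => hμα j
    rw [h1]
    exact (three_le hμa U hU).trans hstd'
  have hgen : OK (tri (d + 1)) mm → GenExp D mm := by
    intro hOK
    have h := genExp_of_OK d mm hOK
    rcases hD with rfl | ⟨h1, h2⟩
    · exact h
    · exact h.le h1 h2
  rcases Nat.eq_zero_or_pos κ with h0 | hκ1
  · -- multiples of the anticanonical class
    subst h0
    apply hgen
    have a0 := hμa (show 0 ≤ 1 by norm_num)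
    have a1 := hμa (show 1 ≤ 2 by norm_num)
    have a2 := hμa (show 2 ≤ 3 by norm_num)
    have a3 := hμa (show 3 ≤ 4 by norm_num)
    have a4 := hμa (show 4 ≤ 5 by norm_num)
    have a5 := hμa (show 5 ≤ 6 by norm_num)
    have a6 := hμa (show 6 ≤ 7 by norm_num)
    have a7 := hμa (show 7 ≤ 8 by norm_num)
    have hd : d = 3 * μ 8 := by omega
    apply tri_of_nine (d + 1) mm α hα
    rw [hd]
    apply tri_anti (μ 8) _ _
    intro t
    rw [hμα]
    have h1 : μ 8 ≤ μ t := hμa (by omega)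
    have h2 : μ t ≤ μ 0 := hμa (by omega)
    omega
  · have hsq : ∑ j, mm (α j) ^ 2 + 3100 * m ^ 3 ≤ d ^ 2 := by
      rcases hbig with h | h | h
      · exact h
      · have h1 := sq_of_deg2 hμa hm (by omega) hstd' (by omega) h.1 h.2
        rw [e2, e4]
        exact h1
      · have h4 : 780 * m ^ 2 ≤ 9400 * m ^ 3 := by
          have : m ^ 2 ≤ m ^ 3 := Nat.pow_le_pow_right hm (by norm_num)
          omega
        have h5 : d ≤ κ * d := Nat.le_mul_of_pos_left d hκ1
        have h1 := sq_of_deg2 hμa hm (κ := κ) (by omega) hstd' (by omega) (h4.trans h) (h.trans h5)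
        rw [e2, e4]
        exact h1
    rcases Nat.lt_or_ge (18 * m) κ with hbigκ | hsmallκ
    · exact gen_nine_final m d D mm α hα hanti hm hm9 hother hstd (by omega) (Or.inl hsq) hD
    · apply hgen
      apply tri_of_nine (d + 1) mm α hα
      obtain ⟨ν, hν1, hν2, hν3⟩ := exists_nu hm hκ1 hsmallκ
      have hc : ∀ t : Fin 9, μ 8 ≤ mm (α t) := by
        intro t
        rw [hμα]
        exact hμa (by omega)
      apply tri_halphen m ν κ (μ 8) d (fun t => mm (α t)) _ hm _ h3 hκ hκ1 hc 8 m8 hν1 hν2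
      · -- the size of the ninth multiplicity
        obtain ⟨g, hg⟩ : ∃ g, d = 3 * μ 8 + g := by
          obtain ⟨h0, -⟩ := cls h3 hκ hκ1 hc
          exact ⟨d - 3 * μ 8, by omega⟩
        obtain ⟨x, hx⟩ : ∃ x : Fin 9 → ℕ, x = fun t => mm (α t) - μ 8 := ⟨_, rfl⟩
        have hs := sum_sub_nine hc
        have hxκ : ∑ t, x t + κ = 3 * g := by rw [hx]; simp only; omega
        have hsq2 : g ^ 2 ≤ ∑ t, x t ^ 2 + κ ^ 2 :=
          sq_le (t0 := 8) (by rw [hx]; simp only; omega) hxκ
        have e5 : ∑ j, mm (α j) ^ 2 = ∑ t, x t ^ 2 + 2 * μ 8 * ∑ t, x t + 9 * μ 8 ^ 2 := by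
          have h9 : 9 * μ 8 ^ 2 = ∑ t : Fin 9, μ 8 ^ 2 := by simp
          rw [h9, Finset.mul_sum, ← Finset.sum_add_distrib, ← Finset.sum_add_distrib]
          refine Finset.sum_congr rfl fun t _ => ?_
          have h1 := hc t
          obtain ⟨y, hy⟩ : ∃ y, mm (α t) = μ 8 + y := ⟨mm (α t) - μ 8, by omega⟩
          rw [hx]
          simp only
          rw [hy, Nat.add_sub_cancel_left]
          ring
        have e6 : 3100 * m ^ 3 ≤ 2 * (μ 8 * κ) + κ ^ 2 := by
          rw [e5, hg] at hsq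
          have e7 : (3 * μ 8 + g) ^ 2 = 9 * μ 8 ^ 2 + 2 * μ 8 * (3 * g) + g ^ 2 := by ring
          rw [e7, ← hxκ] at hsq
          have e8 : 2 * μ 8 * (∑ t, x t + κ) = 2 * μ 8 * ∑ t, x t + 2 * (μ 8 * κ) := by ring
          omega
        have e7 : κ ^ 2 ≤ 324 * m ^ 3 := by
          have h1 : κ ^ 2 ≤ (18 * m) ^ 2 := Nat.pow_le_pow_left hsmallκ 2
          have h2 : m ^ 2 ≤ m ^ 3 := Nat.pow_le_pow_right hm (by norm_num)
          have h4 : (18 * m) ^ 2 = 324 * m ^ 2 := by ring
          omega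
        have e8 : 2 * m * ν * κ ≤ μ 8 * κ := by
          have h1 : 2 * m * (ν * κ) ≤ 2 * m * (518 * m ^ 2) := Nat.mul_le_mul_left _ hν3
          have h2 : 2 * m * (518 * m ^ 2) = 1036 * m ^ 3 := by ring
          have h4 : 2 * m * ν * κ = 2 * m * (ν * κ) := by ring
          omega
        exact Nat.le_of_mul_le_mul_right e8 hκ1
      · intro i
        split_ifs with h
        · omega
        · apply hother
          intro hi
          apply h
          obtain ⟨t, rfl⟩ := hi
          exact Finset.mem_image_of_mem α (Finset.mem_univ t)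

end Pool.MP_70e04f_ag.Hal
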