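import Pool.Agent.Lib_MP_70e04f_hal.Defs

/-!
# Restriction to the acnodal cubic: first properties (piece NODA)

PAPER PROOF. `eval_nod`: ring homomorphisms agreeing on constants and variables (as `eval_cub` in
`Lib_MP_70e04f_add/CubA.lean`). `dvd_nod`: as `CubA.dvd_cub`. `natDegree_nod_le`,
`coeff_nod_top`: a monomial `x ^ a y ^ b` goes to `(S ^ 2 + 1) ^ (a + b) S ^ b`, of degree
`2 a + 3 b ≤ 3 (a + b)`, with equality only if `a = 0`, and then it is monic; (compare
`natDegree_cub_le`, `coeff_cub_top` in `Lib_MP_70e04f_nine/CubFact.lean` and `CubSur.lean`). `nv_nod`: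
`aeval I (nod F)` is `MvPolynomial.aeval ![0, 0] F` because `I ^ 2 + 1 = 0`, the image of the real
number `eval ![0, 0] F` (`MvPolynomial.induction_on` or comparison of the algebra homomorphisms
`MvPolynomial → ℂ` on the variables). `lin_dvd_nod`: the factors `(X - C (s t)) ^ m t` are
pairwise coprime (`Finset.prod_dvd_of_coprime`, `Polynomial.isCoprime_X_sub_C_of_isUnit_sub`,
`IsCoprime.pow`). `aeval_lin_ne`: `I - s t ≠ 0` because its imaginary part is `1`.
-/

namespace Pool.MP_70e04f_ag.Hal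

open MvPolynomial Pool.MP_70e04f_ag.Hex Pool.MP_70e04f_ag.Add Pool.MP_70e04f_ag.Nine

lemma eval_nod (e : ℝ) (G : MvPolynomial (Fin 2) ℝ) :
    (nod G).eval e = MvPolynomial.eval ![e ^ 2 + 1, e * (e ^ 2 + 1)] G := by
  have h : (Polynomial.evalRingHom e).comp (nod : MvPolynomial (Fin 2) ℝ →+* Polynomial ℝ) =
      MvPolynomial.eval ![e ^ 2 + 1, e * (e ^ 2 + 1)] := by
    apply MvPolynomial.ringHom_ext
    · intro r
      simp [nod]
    · intro i
      fin_cases i <;> simp [nod]
  exact congrArg (fun ψ : MvPolynomial (Fin 2) ℝ →+* ℝ => ψ G) h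

lemma dvd_nod {τ : Type*} {s : τ → ℝ} {t : τ} {m : ℕ} {F : MvPolynomial (Fin 2) ℝ}
    (h : F ∈ pt (npt s t) ^ m) : (Polynomial.X - Polynomial.C (s t)) ^ m ∣ nod F := by
  have h1 : Ideal.map (nod : MvPolynomial (Fin 2) ℝ →+* Polynomial ℝ)
      (RingHom.ker (MvPolynomial.eval (npt s t))) ≤
      Ideal.span {Polynomial.X - Polynomial.C (s t)} := by
    rw [Ideal.map_le_iff_le_comap]
    intro G hG
    rw [Ideal.mem_comap, Ideal.mem_span_singleton, Polynomial.dvd_iff_isRoot, Polynomial.IsRoot.def]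
    rw [RingHom.mem_ker] at hG
    change (nod G).eval (s t) = 0
    rw [eval_nod]
    exact hG
  have h2 := Ideal.mem_map_of_mem (nod : MvPolynomial (Fin 2) ℝ →+* Polynomial ℝ) h
  rw [Ideal.map_pow] at h2
  have h3 := Ideal.pow_right_mono h1 m h2
  rw [Ideal.span_singleton_pow, Ideal.mem_span_singleton] at h3
  exact h3

private lemma noda_sq_monic : (Polynomial.X ^ 2 + 1 : Polynomial ℝ).Monic := by
  have := Polynomial.monic_X_pow_add_C (1 : ℝ) (n := 2) (by norm_num)
  rwa [Polynomial.C_1] at this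

private lemma noda_sq_deg : (Polynomial.X ^ 2 + 1 : Polynomial ℝ).natDegree = 2 := by
  have := Polynomial.natDegree_X_pow_add_C (n := 2) (r := (1 : ℝ))
  rwa [Polynomial.C_1] at this

private lemma noda_mon_monic (a b : ℕ) :
    ((Polynomial.X ^ 2 + 1) ^ (a + b) * Polynomial.X ^ b : Polynomial ℝ).Monic :=
  (noda_sq_monic.pow _).mul (Polynomial.monic_X_pow _)

private lemma noda_mon_deg (a b : ℕ) :
    ((Polynomial.X ^ 2 + 1) ^ (a + b) * Polynomial.X ^ b : Polynomial ℝ).natDegree =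
      2 * a + 3 * b := by
  rw [(noda_sq_monic.pow _).natDegree_mul (Polynomial.monic_X_pow _),
    noda_sq_monic.natDegree_pow, noda_sq_deg, Polynomial.natDegree_X_pow]
  ring

private lemma nod_eq_sum (F : MvPolynomial (Fin 2) ℝ) :
    nod F = ∑ s ∈ F.support, Polynomial.C (coeff s F) *
      ((Polynomial.X ^ 2 + 1) ^ (s 0 + s 1) * Polynomial.X ^ (s 1)) := by
  conv_lhs => rw [F.as_sum]
  rw [map_sum]
  refine Finset.sum_congr rfl (fun s _ => ?_)
  unfold nod
  rw [aeval_monomial, Finsupp.prod_fintype _ _ (fun _ => pow_zero _), Fin.prod_univ_two]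
  simp only [Matrix.cons_val_zero, Matrix.cons_val_one, Polynomial.algebraMap_eq]
  rw [mul_pow, pow_add]
  ring

lemma natDegree_nod_le (F : MvPolynomial (Fin 2) ℝ) : (nod F).natDegree ≤ 3 * F.totalDegree := by
  rw [nod_eq_sum]
  refine Polynomial.natDegree_sum_le_of_forall_le _ _ (fun s hs => ?_)
  refine (Polynomial.natDegree_C_mul_le _ _).trans ?_
  rw [noda_mon_deg]
  have := supp_le hs
  omega

lemma coeff_nod_top {k : ℕ} {F : MvPolynomial (Fin 2) ℝ} (h : F.totalDegree ≤ k) :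
    (nod F).coeff (3 * k) = coeff (mon 0 k) F := by
  rw [nod_eq_sum, Polynomial.finsetSum_coeff]
  have h1 : ∀ s ∈ F.support, (Polynomial.C (coeff s F) *
      ((Polynomial.X ^ 2 + 1) ^ (s 0 + s 1) * Polynomial.X ^ (s 1))).coeff (3 * k) =
      if s = mon 0 k then coeff s F else 0 := by
    intro s hs
    have h2 := (supp_le hs).trans h
    rw [Polynomial.coeff_C_mul]
    by_cases h3 : s = mon 0 k
    · have h4 : s 0 = 0 := by rw [h3, mon_zero']
      have h5 : s 1 = k := by rw [h3, mon_one']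
      rw [if_pos h3]
      have h6 : ((Polynomial.X ^ 2 + 1) ^ (s 0 + s 1) * Polynomial.X ^ (s 1) :
          Polynomial ℝ).coeff (3 * k) = 1 := by
        have h7 := (noda_mon_monic (s 0) (s 1)).coeff_natDegree
        rw [noda_mon_deg] at h7
        rwa [show 2 * s 0 + 3 * s 1 = 3 * k by omega] at h7
      rw [h6, mul_one]
    · rw [if_neg h3, Polynomial.coeff_eq_zero_of_natDegree_lt, mul_zero]
      rw [noda_mon_deg]
      by_contra h4
      apply h3
      have h5 : s 0 = 0 := by omega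
      have h6 : s 1 = k := by omega
      rw [← mon_eta s, h5, h6]
  rw [Finset.sum_congr rfl h1, Finset.sum_ite_eq' F.support (mon 0 k) (fun s => coeff s F)]
  split_ifs with h2
  · rfl
  · rw [notMem_support_iff.1 h2]

/-- The condition at the node. -/
lemma nv_nod (F : MvPolynomial (Fin 2) ℝ) : nv (nod F) = 0 := by
  have h : ((Polynomial.aeval Complex.I).comp nod : MvPolynomial (Fin 2) ℝ →ₐ[ℝ] ℂ) =
      (Algebra.ofId ℝ ℂ).comp (MvPolynomial.aeval ![(0 : ℝ), 0]) := by
    apply MvPolynomial.algHom_ext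
    intro i
    fin_cases i <;> simp [nod]
  have h1 : Polynomial.aeval Complex.I (nod F) =
      ((MvPolynomial.aeval ![(0 : ℝ), 0] F : ℝ) : ℂ) :=
    congrArg (fun ψ : MvPolynomial (Fin 2) ℝ →ₐ[ℝ] ℂ => ψ F) h
  unfold nv
  rw [h1, Complex.ofReal_im]

lemma lin_monic {τ : Type*} [Fintype τ] (s : τ → ℝ) (a : τ → ℕ) : (lin s a).Monic :=
  Polynomial.monic_prod_of_monic _ _ fun t _ => (Polynomial.monic_X_sub_C (s t)).pow (a t)

lemma natDegree_lin {τ : Type*} [Fintype τ] (s : τ → ℝ) (a : τ → ℕ) :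
    (lin s a).natDegree = ∑ t, a t := by
  unfold lin
  rw [Polynomial.natDegree_prod_of_monic _ _
    fun t _ => (Polynomial.monic_X_sub_C (s t)).pow (a t)]
  refine Finset.sum_congr rfl fun t _ => ?_
  rw [(Polynomial.monic_X_sub_C (s t)).natDegree_pow, Polynomial.natDegree_X_sub_C, mul_one]

lemma aeval_lin_ne {τ : Type*} [Fintype τ] (s : τ → ℝ) (a : τ → ℕ) :
    Polynomial.aeval Complex.I (lin s a) ≠ 0 := by
  unfold lin
  rw [map_prod, Finset.prod_ne_zero_iff]
  intro t _
  rw [map_pow]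
  apply pow_ne_zero
  rw [map_sub, Polynomial.aeval_X, Polynomial.aeval_C]
  intro h
  have h1 := congrArg Complex.im h
  simp at h1

lemma lin_dvd_nod {τ : Type*} [Fintype τ] {s : τ → ℝ} (hs : Function.Injective s) {N : ℕ}
    {m : τ → ℕ} {F : MvPolynomial (Fin 2) ℝ} (h : F ∈ Lsys N m (npt s)) : lin s m ∣ nod F := by
  obtain ⟨_, h2⟩ := Submodule.mem_inf.1 h
  rw [mem_vanish] at h2
  refine Finset.prod_dvd_of_coprime ?_ fun t _ => dvd_nod (h2 t)
  intro t _ t' _ htt
  refine IsCoprime.pow ?_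
  refine Polynomial.isCoprime_X_sub_C_of_isUnit_sub ?_
  exact (sub_ne_zero.2 fun he => htt (hs he)).isUnit

end Pool.MP_70e04f_ag.Hal
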