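import Pool.Agent.Lib_MP_70e04f_hal.Defs

/-!
# The kernel of the restriction to the acnodal cubic (piece NODB)

HOW TO: adapt `Lib_MP_70e04f_add/CubB.lean` (`normal_form`, `coeff_mul_mon` can be reused or
copied). Modulo `ncu` every polynomial is congruent to `A (x) + y B (x)`
(`y ^ 2 = x ^ 3 - x ^ 2`), and
`A (S ^ 2 + 1) + S (S ^ 2 + 1) B (S ^ 2 + 1) = 0` gives `A = B = 0`: even and odd parts, i.e. replace
`S` by `- S`, add and subtract (`A.comp (X ^ 2 + 1) = 0` implies `A = 0`, `natDegree_comp` or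
`Polynomial.comp_eq_zero_iff`). The cubic after the translation to `p = (x, y) =
(e ^ 2 + 1, e (e ^ 2 + 1))` is `Y ^ 2 + 2 y Y - X ^ 3 - (3 x - 1) X ^ 2 - (3 x ^ 2 - 2 x) X`, where
the coefficient `3 x ^ 2 - 2 x = x (3 x - 2)` is not zero as `x ≥ 1`; so `order_drop` has the same
proof as in `CubB.lean` (there the coefficient of `X` is `3 e ^ 4`). `finrank_nod_ker`: as
`finrank_cub_ker`. `hT_le_nod` is the rank-nullity step in the proof of `Std.hT_le`
(`Lib_MP_70e04f_add/Cubic.lean`). `hT_ncu_mul`: multiplication by `ncu ^ j` is injective and maps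
`Lsys N m` into `Lsys (N + 3 j) (m + j)` (`ncu ∈ pt (npt s t)`, `Ideal.mul_mem_mul`, and
`mul_mem_Lsys` in `Lib_MP_70e04f_add/Sys.lean` for the degree).
-/

namespace Pool.MP_70e04f_ag.Hal

open MvPolynomial Pool.MP_70e04f_ag.Hex Pool.MP_70e04f_ag.Add Pool.MP_70e04f_ag.Nine

namespace NodB

/-- Coefficients of a product with a monomial. -/
lemma coeff_mul_mon (a b i j : ℕ) (p : MvPolynomial (Fin 2) ℝ) :
    coeff (mon a b) (X 0 ^ i * X 1 ^ j * p) =
      if i ≤ a ∧ j ≤ b then coeff (mon (a - i) (b - j)) p else 0 :=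
  CubB.coeff_mul_mon a b i j p

/-- Normal form modulo the cubic. -/
lemma normal_form (F : MvPolynomial (Fin 2) ℝ) : ∃ A B : Polynomial ℝ,
    ncu ∣ F - (Polynomial.aeval (X 0 : MvPolynomial (Fin 2) ℝ) A +
        X 1 * Polynomial.aeval (X 0 : MvPolynomial (Fin 2) ℝ) B) := by
  induction F using MvPolynomial.induction_on with
  | C a =>
    refine ⟨Polynomial.C a, 0, ?_⟩
    rw [Polynomial.aeval_C, map_zero, mul_zero, add_zero, MvPolynomial.algebraMap_eq, sub_self]
    exact dvd_zero _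
  | add F G hF hG =>
    obtain ⟨A, B, h⟩ := hF
    obtain ⟨A', B', h'⟩ := hG
    refine ⟨A + A', B + B', ?_⟩
    have := dvd_add h h'
    rw [map_add, map_add]
    convert this using 1
    ring
  | mul_X F i hF =>
    obtain ⟨A, B, h⟩ := hF
    fin_cases i
    · refine ⟨A * Polynomial.X, B * Polynomial.X, ?_⟩
      rw [map_mul, map_mul, Polynomial.aeval_X]
      have := h.mul_right (X 0)
      convert this using 1
      simp only [Fin.zero_eta, Fin.isValue]
      ring
    · refine ⟨B * (Polynomial.X ^ 3 - Polynomial.X ^ 2), A, ?_⟩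
      rw [map_mul, map_sub, map_pow, map_pow, Polynomial.aeval_X]
      have h1 := h.mul_right (X 1)
      have h2 : ncu ∣ ncu * Polynomial.aeval (X 0 : MvPolynomial (Fin 2) ℝ) B :=
        dvd_mul_right _ _
      have := dvd_add h1 h2
      convert this using 1
      simp only [Fin.mk_one, Fin.isValue, ncu]
      ring

lemma nod_aeval (A : Polynomial ℝ) :
    nod (Polynomial.aeval (X 0 : MvPolynomial (Fin 2) ℝ) A) = A.comp (Polynomial.X ^ 2 + 1) := by
  have h : nod.comp (Polynomial.aeval (X 0 : MvPolynomial (Fin 2) ℝ)) =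
      Polynomial.aeval (Polynomial.X ^ 2 + 1 : Polynomial ℝ) := by
    apply Polynomial.algHom_ext
    simp [nod]
  have h1 := congrArg (fun ψ : Polynomial ℝ →ₐ[ℝ] Polynomial ℝ => ψ A) h
  simp only [AlgHom.comp_apply] at h1
  rw [h1, Polynomial.aeval_def, Polynomial.comp, Polynomial.algebraMap_eq]

lemma comp_zero {A : Polynomial ℝ} (h : A.comp (Polynomial.X ^ 2 + 1) = 0) : A = 0 := by
  rcases Polynomial.comp_eq_zero_iff.1 h with h1 | ⟨-, h2⟩
  · exact h1
  · exfalso
    have h3 := congrArg (fun P : Polynomial ℝ => P.coeff 2) h2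
    simp [Polynomial.coeff_one, Polynomial.coeff_X_pow] at h3

lemma even_odd {A B : Polynomial ℝ}
    (h : A.comp (Polynomial.X ^ 2 + 1) +
      Polynomial.X * (Polynomial.X ^ 2 + 1) * B.comp (Polynomial.X ^ 2 + 1) = 0) :
    A = 0 ∧ B = 0 := by
  have h1 := congrArg (fun P : Polynomial ℝ => P.comp (-Polynomial.X)) h
  simp only [Polynomial.add_comp, Polynomial.mul_comp, Polynomial.comp_assoc,
    Polynomial.X_comp, Polynomial.pow_comp, Polynomial.one_comp, Polynomial.zero_comp,
    neg_sq] at h1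
  have h2 : A.comp (Polynomial.X ^ 2 + 1) = 0 := by
    have h3 : (2 : Polynomial ℝ) * A.comp (Polynomial.X ^ 2 + 1) = 0 := by
      linear_combination h + h1
    exact (mul_eq_zero.1 h3).resolve_left two_ne_zero
  rw [h2, zero_add] at h
  refine ⟨comp_zero h2, comp_zero ((mul_eq_zero.1 h).resolve_left ?_)⟩
  intro h3
  have h4 := congrArg (fun P : Polynomial ℝ => P.eval 1) h3
  simp only [Polynomial.eval_mul, Polynomial.eval_X, Polynomial.eval_add, Polynomial.eval_pow,
    Polynomial.eval_one, Polynomial.eval_zero] at h4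
  norm_num at h4

/-- The cubic after the translation. -/
lemma shift_f (e : ℝ) :
    shift (![e ^ 2 + 1, e * (e ^ 2 + 1)] : Fin 2 → ℝ) ncu =
      X 0 ^ 0 * X 1 ^ 2 + C (2 * (e * (e ^ 2 + 1))) * (X 0 ^ 0 * X 1 ^ 1) - X 0 ^ 3 * X 1 ^ 0 -
        C (3 * (e ^ 2 + 1) - 1) * (X 0 ^ 2 * X 1 ^ 0) -
        C (3 * (e ^ 2 + 1) ^ 2 - 2 * (e ^ 2 + 1)) * (X 0 ^ 1 * X 1 ^ 0) := by
  simp only [ncu, shift, map_sub, map_add, map_pow, aeval_X, Matrix.cons_val_zero,
    Matrix.cons_val_one, map_mul, map_ofNat, map_one]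
  ring

lemma coeff_ncu : coeff (mon 3 0) ncu = -1 := by
  have h1 := coeff_mul_mon 3 0 0 2 1
  have h2 := coeff_mul_mon 3 0 3 0 1
  have h4 := coeff_mul_mon 3 0 2 0 1
  simp only [pow_zero, one_mul, mul_one] at h1 h2 h4
  rw [ncu, coeff_add, coeff_sub, h1, h2, h4]
  have h3 : mon 0 0 = 0 := by simp [mon]
  have h5 : coeff (mon 1 0) (1 : MvPolynomial (Fin 2) ℝ) = 0 := by
    rw [coeff_one, if_neg]
    intro h6
    have := congrArg (fun f : Fin 2 →₀ ℕ => f 0) h6
    simp [mon_zero'] at this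
  simp [h3, h5]

end NodB

open NodB

lemma nod_ncu : nod ncu = 0 := by
  simp only [nod, ncu, map_sub, map_add, map_pow, aeval_X, Matrix.cons_val_zero,
    Matrix.cons_val_one]
  ring

lemma ncu_ne_zero : ncu ≠ 0 := by
  intro h0
  have h := coeff_ncu
  rw [h0, coeff_zero] at h
  norm_num at h

lemma totalDegree_ncu : ncu.totalDegree = 3 := by
  apply le_antisymm
  · unfold ncu
    refine (totalDegree_add _ _).trans (max_le ((totalDegree_sub _ _).trans (max_le ?_ ?_)) ?_)
    · rw [totalDegree_X_pow]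
      omega
    · rw [totalDegree_X_pow]
    · rw [totalDegree_X_pow]
      omega
  · have h1 : mon 3 0 ∈ ncu.support := by
      rw [mem_support_iff, coeff_ncu]
      norm_num
    have h2 := le_totalDegree h1
    have h3 : ((mon 3 0).sum fun _ n => n) = 3 := by
      have := degree_mon 3 0
      rw [Finsupp.degree_apply] at this
      exact this
    rwa [h3] at h2

lemma ncu_mem {τ : Type*} (s : τ → ℝ) (t : τ) : ncu ∈ pt (npt s t) := by
  rw [RingHom.mem_ker]
  simp only [ncu, npt, map_sub, map_add, map_pow, eval_X, Matrix.cons_val_zero,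
    Matrix.cons_val_one]
  ring

lemma dvd_of_nod {F : MvPolynomial (Fin 2) ℝ} (h : nod F = 0) : ncu ∣ F := by
  obtain ⟨A, B, h1⟩ := normal_form F
  have h2 : nod (F - (Polynomial.aeval (X 0 : MvPolynomial (Fin 2) ℝ) A +
        X 1 * Polynomial.aeval (X 0 : MvPolynomial (Fin 2) ℝ) B)) = 0 := by
    obtain ⟨G, hG⟩ := h1
    rw [hG, map_mul, nod_ncu, zero_mul]
  rw [map_sub, h, zero_sub, neg_eq_zero, map_add, map_mul, nod_aeval, nod_aeval] at h2
  have h3 : nod (X 1 : MvPolynomial (Fin 2) ℝ) = Polynomial.X * (Polynomial.X ^ 2 + 1) := by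
    simp [nod]
  rw [h3] at h2
  obtain ⟨rfl, rfl⟩ := even_odd h2
  simpa using h1

lemma order_drop {e : ℝ} {m : ℕ} {G : MvPolynomial (Fin 2) ℝ}
    (h : ncu * G ∈ pt ![e ^ 2 + 1, e * (e ^ 2 + 1)] ^ m) :
    G ∈ pt ![e ^ 2 + 1, e * (e ^ 2 + 1)] ^ (m - 1) := by
  rw [mem_ker_pow_iff] at h ⊢
  set g := shift (![e ^ 2 + 1, e * (e ^ 2 + 1)] : Fin 2 → ℝ) G with hg
  have hc : (3 * (e ^ 2 + 1) ^ 2 - 2 * (e ^ 2 + 1) : ℝ) ≠ 0 := by
    have h1 : (3 * (e ^ 2 + 1) ^ 2 - 2 * (e ^ 2 + 1) : ℝ) = (e ^ 2 + 1) * (3 * e ^ 2 + 1) := by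
      ring
    rw [h1]
    positivity
  have key : ∀ n, n < m - 1 → ∀ b a, a + b = n → coeff (mon a b) g = 0 := by
    intro n
    induction n using Nat.strong_induction_on with
    | _ n ih =>
      intro hn b
      induction b with
      | zero =>
        intro a hab
        have h1 := h (a + 1, 0) (mem_tri.2 (by change a + 1 + 0 < m; omega))
        rw [map_mul, shift_f, ← hg] at h1
        simp only [sub_mul, add_mul, mul_assoc (C _), coeff_sub, coeff_add, coeff_C_mul,
          coeff_mul_mon] at h1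
        have e1 : ¬ (0 ≤ a + 1 ∧ 2 ≤ 0) := by omega
        have e2 : ¬ (0 ≤ a + 1 ∧ 1 ≤ 0) := by omega
        have e3 : (1 ≤ a + 1 ∧ 0 ≤ 0) := by omega
        rw [if_neg e1, if_neg e2, if_pos e3] at h1
        have e4 : (if 3 ≤ a + 1 ∧ 0 ≤ 0 then coeff (mon (a + 1 - 3) (0 - 0)) g else 0) = 0 := by
          split_ifs with h5
          · exact ih (a + 1 - 3 + 0) (by omega) (by omega) _ _ rfl
          · rfl
        have e5 : (if 2 ≤ a + 1 ∧ 0 ≤ 0 then coeff (mon (a + 1 - 2) (0 - 0)) g else 0) = 0 := by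
          split_ifs with h5
          · exact ih (a + 1 - 2 + 0) (by omega) (by omega) _ _ rfl
          · rfl
        rw [e4, e5, Nat.add_sub_cancel, Nat.sub_zero] at h1
        have h6 : (3 * (e ^ 2 + 1) ^ 2 - 2 * (e ^ 2 + 1)) * coeff (mon a 0) g = 0 := by
          linarith
        exact (mul_eq_zero.1 h6).resolve_left hc
      | succ b ihb =>
        intro a hab
        have h1 := h (a + 1, b + 1) (mem_tri.2 (by change a + 1 + (b + 1) < m; omega))
        rw [map_mul, shift_f, ← hg] at h1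
        simp only [sub_mul, add_mul, mul_assoc (C _), coeff_sub, coeff_add, coeff_C_mul,
          coeff_mul_mon] at h1
        have e2 : (0 ≤ a + 1 ∧ 1 ≤ b + 1) := by omega
        have e3 : (1 ≤ a + 1 ∧ 0 ≤ b + 1) := by omega
        rw [if_pos e2, if_pos e3] at h1
        have e1 : (if 0 ≤ a + 1 ∧ 2 ≤ b + 1 then coeff (mon (a + 1 - 0) (b + 1 - 2)) g else 0)
            = 0 := by
          split_ifs with h5
          · exact ih (a + 1 - 0 + (b + 1 - 2)) (by omega) (by omega) _ _ rfl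
          · rfl
        have e4 : (if 3 ≤ a + 1 ∧ 0 ≤ b + 1 then coeff (mon (a + 1 - 3) (b + 1 - 0)) g else 0)
            = 0 := by
          split_ifs with h5
          · exact ih (a + 1 - 3 + (b + 1 - 0)) (by omega) (by omega) _ _ rfl
          · rfl
        have e5 : (if 2 ≤ a + 1 ∧ 0 ≤ b + 1 then coeff (mon (a + 1 - 2) (b + 1 - 0)) g else 0)
            = 0 := by
          split_ifs with h5
          · exact ih (a + 1 - 2 + (b + 1 - 0)) (by omega) (by omega) _ _ rfl
          · rfl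
        have e6 : coeff (mon (a + 1 - 0) (b + 1 - 1)) g = 0 := by
          apply ihb
          omega
        rw [e1, e4, e5, e6, Nat.add_sub_cancel, Nat.sub_zero] at h1
        have h6 : (3 * (e ^ 2 + 1) ^ 2 - 2 * (e ^ 2 + 1)) * coeff (mon a (b + 1)) g = 0 := by
          linarith
        exact (mul_eq_zero.1 h6).resolve_left hc
  intro q hq
  exact key (q.1 + q.2) (mem_tri.1 hq) q.2 q.1 rfl

/-- The dimension of the kernel of the restriction. -/
theorem finrank_nod_ker {τ : Type*} [Fintype τ] {s : τ → ℝ} {N : ℕ} (m : τ → ℕ) :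
    Module.finrank ℝ ↥(Lsys N m (npt s) ⊓ LinearMap.ker nod.toLinearMap) ≤
      hT (N - 3) (fun t => m t - 1) (npt s) := by
  let M : MvPolynomial (Fin 2) ℝ →ₗ[ℝ] MvPolynomial (Fin 2) ℝ := LinearMap.mulLeft ℝ ncu
  have h : Lsys N m (npt s) ⊓ LinearMap.ker nod.toLinearMap ≤
      (Lsys (N - 3) (fun t => m t - 1) (npt s)).map M := by
    intro F hF
    obtain ⟨hF1, hF2⟩ := Submodule.mem_inf.1 hF
    obtain ⟨hF3, hF4⟩ := Submodule.mem_inf.1 hF1
    obtain ⟨G, hG⟩ := dvd_of_nod (F := F) hF2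
    rw [mem_vanish] at hF4
    refine Submodule.mem_map.2 ⟨G, ?_, hG.symm⟩
    refine Submodule.mem_inf.2 ⟨?_, ?_⟩
    · by_cases hG0 : G = 0
      · rw [hG0]
        exact Submodule.zero_mem _
      · have hFne : F ≠ 0 := by
          rw [hG]
          exact mul_ne_zero ncu_ne_zero hG0
        have hN : N ≠ 0 := by
          rintro rfl
          apply hFne
          obtain ⟨v, rfl⟩ := hF3
          rw [toPS, Fintype.linearCombination_apply]
          apply Finset.sum_eq_zero
          intro q _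
          have := mem_tri.1 q.2
          omega
        obtain ⟨N', rfl⟩ := Nat.exists_eq_succ_of_ne_zero hN
        have h1 := mem_range_tri.1 hF3
        rw [hG, totalDegree_mul_of_isDomain ncu_ne_zero hG0, totalDegree_ncu] at h1
        have h3 : N' + 1 - 3 = (N' - 3) + 1 := by omega
        rw [Nat.succ_eq_add_one, h3]
        rw [mem_range_tri]
        omega
    · rw [mem_vanish]
      intro t
      have h1 := hF4 t
      rw [hG] at h1
      exact order_drop h1
  calc Module.finrank ℝ ↥(Lsys N m (npt s) ⊓ LinearMap.ker nod.toLinearMap)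
      ≤ Module.finrank ℝ ↥((Lsys (N - 3) (fun t => m t - 1) (npt s)).map M) :=
        Submodule.finrank_mono h
    _ ≤ Module.finrank ℝ ↥(Lsys (N - 3) (fun t => m t - 1) (npt s)) :=
        Submodule.finrank_map_le _ _
    _ = hT (N - 3) (fun t => m t - 1) (npt s) := rfl

/-- Rank and nullity. -/
theorem hT_le_nod {τ : Type*} [Fintype τ] (s : τ → ℝ) (N : ℕ) (m : τ → ℕ) :
    hT N m (npt s) ≤ Module.finrank ℝ ↥((Lsys N m (npt s)).map nod.toLinearMap) +
      Module.finrank ℝ ↥(Lsys N m (npt s) ⊓ LinearMap.ker nod.toLinearMap) := by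
  have h7 := LinearMap.finrank_range_add_finrank_ker
    (nod.toLinearMap.domRestrict (Lsys N m (npt s)))
  rw [LinearMap.range_domRestrict] at h7
  have h8 : Module.finrank ℝ
      ↥(LinearMap.ker (nod.toLinearMap.domRestrict (Lsys N m (npt s)))) ≤
      Module.finrank ℝ ↥(Lsys N m (npt s) ⊓ LinearMap.ker nod.toLinearMap) := by
    have : Module.Finite ℝ ↥(Lsys N m (npt s) ⊓ LinearMap.ker nod.toLinearMap) :=
      Submodule.finiteDimensional_inf_left _ _
    apply LinearMap.finrank_le_finrank_of_injective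
      (f := (((Lsys N m (npt s)).subtype).domRestrict
        (LinearMap.ker (nod.toLinearMap.domRestrict (Lsys N m (npt s))))).codRestrict
        (Lsys N m (npt s) ⊓ LinearMap.ker nod.toLinearMap) (fun x => ⟨x.1.2, x.2⟩))
    intro x y hxy
    have := congrArg Subtype.val hxy
    exact Subtype.ext (Subtype.ext this)
  unfold hT
  omega

/-- Multiplication by powers of the cubic. -/
theorem hT_ncu_mul {τ : Type*} [Fintype τ] (s : τ → ℝ) (N : ℕ) (m : τ → ℕ) (j : ℕ) :
    hT N m (npt s) ≤ hT (N + 3 * j) (fun t => m t + j) (npt s) := by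
  let M : MvPolynomial (Fin 2) ℝ →ₗ[ℝ] MvPolynomial (Fin 2) ℝ :=
    LinearMap.mulLeft ℝ (ncu ^ j)
  have hM : Function.Injective M := by
    intro F G hFG
    exact mul_left_cancel₀ (pow_ne_zero j ncu_ne_zero) hFG
  have h : (Lsys N m (npt s)).map M ≤ Lsys (N + 3 * j) (fun t => m t + j) (npt s) := by
    rintro _ ⟨F, hF, rfl⟩
    have hdeg : (ncu ^ j).totalDegree ≤ 3 * j := by
      refine (totalDegree_pow _ _).trans ?_
      rw [totalDegree_ncu]
      omega
    have h1 := mul_mem_Lsys hdeg hF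
    refine Submodule.mem_inf.2 ⟨(Submodule.mem_inf.1 h1).1, ?_⟩
    rw [mem_vanish]
    intro t
    have h2 := mem_vanish.1 (Submodule.mem_inf.1 hF).2 t
    have h3 : ncu ^ j ∈ pt (npt s t) ^ j := Ideal.pow_mem_pow (ncu_mem s t) j
    have h4 := Ideal.mul_mem_mul h3 h2
    rw [← pow_add, add_comm j (m t)] at h4
    exact h4
  unfold hT
  rw [LinearEquiv.finrank_eq (Submodule.equivMapOfInjective M hM (Lsys N m (npt s)))]
  exact Submodule.finrank_mono h

end Pool.MP_70e04f_ag.Hal
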