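import Pool.Agent.Lib_MP_70e04f_hal.NodA

/-!
# The dimension of the restricted system (piece NODC)

PAPER PROOF. Let `D = 3 (N - 1)`, `F ∈ Lsys N m (npt s)`; then `natDegree (nod F) ≤ D`
(`natDegree_nod_le`, `mem_range_tri` for `N ≥ 1`; `F = 0` for `N = 0`), `nod F = lin s m * Q` with
`natDegree Q ≤ D - ∑ m t` (or `Q = 0`), and `0 = nv (nod F) = im (z * Q (i))` where
`z = aeval I (lin s m) ≠ 0`. `finrank_nod`: the space of such `Q` is the kernel of the linear
functional `Q ↦ im (z * aeval I Q)` on `Polynomial.degreeLT ℝ (D - ∑ m t + 1)`, of dimension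
`D - ∑ m t + 1`; the functional is not zero, because its values at `1` and at `X` (degree
`≤ D - ∑ m t` by hypothesis) are `im z` and `im (z i) = re z`, and `z ≠ 0`. So the kernel has
dimension `≤ D - ∑ m t` and the image of `Lsys N m` is contained in `lin s m * kernel`
(`Submodule.map` of the kernel by `LinearMap.mulLeft`, `Submodule.finrank_map_le`).
`nod_eq_lin`: if `∑ m t = D` then `Q` is a constant. `nod_eq_zero`: and `c * im z = 0`, so `c = 0`.
-/

namespace Pool.MP_70e04f_ag.Hal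

open MvPolynomial Pool.MP_70e04f_ag.Hex Pool.MP_70e04f_ag.Add Pool.MP_70e04f_ag.Nine

namespace NodC

lemma natDegree_le {τ : Type*} {s : τ → ℝ} {N : ℕ} {m : τ → ℕ} {F : MvPolynomial (Fin 2) ℝ}
    (hF : F ∈ Lsys N m (npt s)) : (nod F).natDegree ≤ 3 * (N - 1) := by
  have hF1 := (Submodule.mem_inf.1 hF).1
  rcases Nat.eq_zero_or_pos N with h0 | h0
  · subst h0
    have hF0 : F = 0 := by
      obtain ⟨v, rfl⟩ := hF1
      rw [toPS, Fintype.linearCombination_apply]
      apply Finset.sum_eq_zero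
      intro q _
      have := mem_tri.1 q.2
      omega
    rw [hF0, map_zero, Polynomial.natDegree_zero]
  · obtain ⟨N', rfl⟩ : ∃ N', N = N' + 1 := ⟨N - 1, by omega⟩
    have h1 := mem_range_tri.1 hF1
    refine (natDegree_nod_le F).trans ?_
    rw [Nat.add_sub_cancel]
    exact Nat.mul_le_mul_left 3 h1

/-- The quotient by `lin s m`. -/
lemma exists_quot {τ : Type*} [Fintype τ] {s : τ → ℝ} (hs : Function.Injective s) {N : ℕ}
    {m : τ → ℕ} {F : MvPolynomial (Fin 2) ℝ} (hF : F ∈ Lsys N m (npt s)) :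
    ∃ Q : Polynomial ℝ, nod F = lin s m * Q ∧
      (Q.natDegree + ∑ t, m t ≤ 3 * (N - 1) ∨ Q = 0) := by
  obtain ⟨Q, hQ⟩ := lin_dvd_nod hs hF
  refine ⟨Q, hQ, ?_⟩
  by_cases h0 : Q = 0
  · exact Or.inr h0
  · left
    have h1 := natDegree_le hF
    rw [hQ, Polynomial.natDegree_mul (lin_monic s m).ne_zero h0, natDegree_lin] at h1
    omega

/-- The condition at the node as a linear functional. -/
noncomputable def phi (z : ℂ) : Polynomial ℝ →ₗ[ℝ] ℝ :=
  Complex.imLm ∘ₗ (LinearMap.mulLeft ℝ z) ∘ₗ (Polynomial.aeval Complex.I).toLinearMap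

lemma phi_apply (z : ℂ) (Q : Polynomial ℝ) :
    phi z Q = (z * Polynomial.aeval Complex.I Q).im := rfl

lemma finrank_lt (n : ℕ) : Module.finrank ℝ ↥(Polynomial.degreeLT ℝ n) = n := by
  rw [(Polynomial.degreeLTEquiv ℝ n).finrank_eq, Module.finrank_fin_fun]

lemma finite_lt (n : ℕ) : Module.Finite ℝ ↥(Polynomial.degreeLT ℝ n) :=
  Module.Finite.equiv (Polynomial.degreeLTEquiv ℝ n).symm

lemma finrank_inf {z : ℂ} (hz : z ≠ 0) {K : ℕ} (hK : 1 ≤ K) :
    Module.finrank ℝ ↥(Polynomial.degreeLT ℝ (K + 1) ⊓ LinearMap.ker (phi z)) ≤ K := by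
  have := finite_lt (K + 1)
  have h1 : Polynomial.degreeLT ℝ (K + 1) ⊓ LinearMap.ker (phi z) <
      Polynomial.degreeLT ℝ (K + 1) := by
    refine lt_of_le_of_ne inf_le_left ?_
    intro h
    have h2 : Polynomial.degreeLT ℝ (K + 1) ≤ LinearMap.ker (phi z) := inf_eq_left.1 h
    have h3 : (1 : Polynomial ℝ) ∈ Polynomial.degreeLT ℝ (K + 1) := by
      rw [Polynomial.mem_degreeLT]
      refine Polynomial.degree_one_le.trans_lt ?_
      exact_mod_cast Nat.succ_pos K
    have h4 : (Polynomial.X : Polynomial ℝ) ∈ Polynomial.degreeLT ℝ (K + 1) := by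
      rw [Polynomial.mem_degreeLT]
      refine Polynomial.degree_X_le.trans_lt ?_
      exact_mod_cast (by omega : 1 < K + 1)
    have h5 : phi z 1 = 0 := h2 h3
    have h6 : phi z Polynomial.X = 0 := h2 h4
    rw [phi_apply, map_one, mul_one] at h5
    rw [phi_apply, Polynomial.aeval_X, Complex.mul_im, Complex.I_re, Complex.I_im] at h6
    apply hz
    apply Complex.ext
    · simpa using h6
    · simpa using h5
  have h2 := Submodule.finrank_lt_finrank_of_lt h1
  rw [finrank_lt] at h2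
  omega

end NodC

open NodC

/-- The dimension of the restricted system. -/
theorem finrank_nod {τ : Type*} [Fintype τ] {s : τ → ℝ} (hs : Function.Injective s) {N : ℕ}
    {m : τ → ℕ} (h : ∑ t, m t + 1 ≤ 3 * (N - 1)) :
    Module.finrank ℝ ↥((Lsys N m (npt s)).map nod.toLinearMap) + ∑ t, m t ≤ 3 * (N - 1) := by
  obtain ⟨K, hK⟩ : ∃ K, 3 * (N - 1) = ∑ t, m t + K := ⟨3 * (N - 1) - ∑ t, m t, by omega⟩
  have hK1 : 1 ≤ K := by omega
  set z := Polynomial.aeval Complex.I (lin s m) with hz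
  have hz0 : z ≠ 0 := aeval_lin_ne s m
  have hle : (Lsys N m (npt s)).map nod.toLinearMap ≤
      (Polynomial.degreeLT ℝ (K + 1) ⊓ LinearMap.ker (phi z)).map
        (LinearMap.mulLeft ℝ (lin s m)) := by
    rintro _ ⟨F, hF, rfl⟩
    obtain ⟨Q, hQ, hQ2⟩ := exists_quot hs hF
    refine ⟨Q, Submodule.mem_inf.2 ⟨?_, ?_⟩, hQ.symm⟩
    · rw [Polynomial.mem_degreeLT]
      rcases hQ2 with h1 | h1
      · refine (Polynomial.degree_le_natDegree).trans_lt ?_
        exact_mod_cast (by omega : Q.natDegree < K + 1)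
      · rw [h1, Polynomial.degree_zero]
        exact WithBot.bot_lt_coe _
    · rw [LinearMap.mem_ker, phi_apply, hz, ← map_mul, ← hQ]
      exact nv_nod F
  have := finite_lt (K + 1)
  have hfin : Module.Finite ℝ ↥(Polynomial.degreeLT ℝ (K + 1) ⊓ LinearMap.ker (phi z)) :=
    Submodule.finiteDimensional_inf_left _ _
  have h1 := Submodule.finrank_mono hle
  have h2 := Submodule.finrank_map_le (LinearMap.mulLeft ℝ (lin s m))
    (Polynomial.degreeLT ℝ (K + 1) ⊓ LinearMap.ker (phi z))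
  have h3 := finrank_inf hz0 hK1
  omega

theorem nod_eq_lin {τ : Type*} [Fintype τ] {s : τ → ℝ} (hs : Function.Injective s) {N : ℕ}
    {m : τ → ℕ} (h : ∑ t, m t = 3 * (N - 1)) {F : MvPolynomial (Fin 2) ℝ}
    (hF : F ∈ Lsys N m (npt s)) : ∃ c : ℝ, nod F = Polynomial.C c * lin s m := by
  obtain ⟨Q, hQ, h1 | h1⟩ := exists_quot hs hF
  · have h2 : Q.natDegree = 0 := by omega
    obtain ⟨c, hc⟩ := Polynomial.natDegree_eq_zero.1 h2
    exact ⟨c, by rw [hQ, ← hc, mul_comm]⟩
  · exact ⟨0, by rw [hQ, h1, mul_zero, map_zero, zero_mul]⟩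

theorem nod_eq_zero {τ : Type*} [Fintype τ] {s : τ → ℝ} (hs : Function.Injective s) {N : ℕ}
    {m : τ → ℕ} (h : ∑ t, m t = 3 * (N - 1)) (hv : nv (lin s m) ≠ 0)
    {F : MvPolynomial (Fin 2) ℝ} (hF : F ∈ Lsys N m (npt s)) : nod F = 0 := by
  obtain ⟨c, hc⟩ := nod_eq_lin hs h hF
  have h1 := nv_nod F
  rw [hc, nv, map_mul, Polynomial.aeval_C, Complex.coe_algebraMap, Complex.im_ofReal_mul] at h1
  rcases mul_eq_zero.1 h1 with h2 | h2
  · rw [hc, h2, map_zero, zero_mul]
  · exact absurd h2 hv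

end Pool.MP_70e04f_ag.Hal
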