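import Pool.Agent.Lib_MP_70e04f_hal.NodB
import Pool.Agent.Lib_MP_70e04f_hal.NodC

/-!
# Exact dimensions for points on the acnodal cubic (piece NODD)

PAPER PROOF. `sum_eight`: split `Z` into `Z1`, `Z2` (three elements each or all remaining ones) and
the rest `Z3` with at most two elements; `∑ Z ≤ 3 D`, with equality only if all three sums are `D`;
then for `w ∈ Z1` the set `Z3 ∪ {w}` has at most three elements, so `f w = 0`; hence the sum over
`Z1` is `0 = D`, a contradiction (compare `sum_nine` in `Lib_MP_70e04f_add/Cubic.lean`).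

`hT_nod`: induction on `N` as in `Std.hT_le` (`Lib_MP_70e04f_add/Cubic.lean`), with `Std.sub`,
`sum_sub_one`. Let `Z` be the set of `t` with `m t ≠ 0`. If `card Z < 3`: `hT_two` (the points
`npt s t` are distinct). Otherwise `4 ≤ N` and `Std (N - 3) (m - 1)`; by hypothesis
`∑ m t + 4 ≤ 3 N`. The induction hypothesis applies: if `N - 3 = 1` nothing has to be checked; if
`card Z ≥ 9` then `∑ (m t - 1) + 4 ≤ ∑ m t - 9 + 4 ≤ 3 (N - 3)`; if `card Z ≤ 8` and `N - 3 ≥ 2` use
`sum_eight` with `D = N - 4 ≥ 1` and `f = m - 1`. Then `hT N m ≤ (3 (N - 1) - ∑ m t) +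
hT (N - 3) (m - 1)` by `hT_le_nod`, `finrank_nod`, `finrank_nod_ker`.

`hT_small`: induction on `j`. `j = 0`: `hT_nod` with `N = 1` (or `rows2_hT_one`). `j + 1 < ν`:
`nod F = 0` for all `F ∈ Lsys (3 (j + 1) + 1) (j + 1)` by `nod_eq_zero` and `Tors.only`
(`0 < j + 1 < ν`, so neither all are `0` nor all are `ν`), so the image has dimension `0`, and
the kernel has dimension at most `hT (3 j + 1) j`.
-/

namespace Pool.MP_70e04f_ag.Hal

open MvPolynomial Pool.MP_70e04f_ag.Hex Pool.MP_70e04f_ag.Add Pool.MP_70e04f_ag.Nine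

/-- Eight numbers. -/
lemma sum_eight {τ : Type*} [DecidableEq τ] (Z : Finset τ) (hZ : Z.card ≤ 8) (f : τ → ℕ) (D : ℕ)
    (hD : 1 ≤ D) (h : ∀ U : Finset τ, U.card ≤ 3 → ∑ t ∈ U, f t ≤ D) :
    ∑ t ∈ Z, f t + 1 ≤ 3 * D := by
  have key : ∀ Z : Finset τ, ∃ Z1 ⊆ Z, Z1.card ≤ 3 ∧ (Z \ Z1).card ≤ Z.card - 3 := by
    intro Z
    rcases Nat.lt_or_ge Z.card 3 with h | h
    · exact ⟨Z, subset_rfl, by omega, by simp⟩
    · obtain ⟨Z1, h1, h2⟩ := Finset.exists_subset_card_eq h
      exact ⟨Z1, h1, by omega, by rw [Finset.card_sdiff_of_subset h1]; omega⟩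
  obtain ⟨Z1, a1, b1, c1⟩ := key Z
  obtain ⟨Z2, a2, b2, c2⟩ := key (Z \ Z1)
  have e1 := Finset.sum_sdiff a1 (f := f)
  have e2 := Finset.sum_sdiff a2 (f := f)
  have h1 := h Z1 b1
  have h2 := h Z2 b2
  have h3 := h ((Z \ Z1) \ Z2) (by omega)
  by_contra hcon
  have h4 : ∑ t ∈ Z1, f t = D := by omega
  have h5 : ∑ t ∈ (Z \ Z1) \ Z2, f t = D := by omega
  have h6 : ∀ w ∈ Z1, f w = 0 := by
    intro w hw
    have hw2 : w ∉ (Z \ Z1) \ Z2 := by
      intro h7
      exact (Finset.mem_sdiff.1 (Finset.mem_sdiff.1 h7).1).2 hw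
    have h8 := h (insert w ((Z \ Z1) \ Z2)) (by
      rw [Finset.card_insert_of_notMem hw2]
      omega)
    rw [Finset.sum_insert hw2] at h8
    omega
  have h9 := Finset.sum_eq_zero h6
  omega

namespace NodD

lemma npt_injective {τ : Type*} {s : τ → ℝ} (hs : Function.Injective s) :
    Function.Injective (npt s) := by
  intro t t' h
  apply hs
  have h0 : s t ^ 2 + 1 = s t' ^ 2 + 1 := congrFun h 0
  have h1 : s t * (s t ^ 2 + 1) = s t' * (s t' ^ 2 + 1) := congrFun h 1
  rw [← h0] at h1
  exact mul_right_cancel₀ (by positivity) h1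

lemma card_eq_sum {τ : Type*} (Z : Finset τ) (m : τ → ℕ) (h : ∀ t ∈ Z, 1 ≤ m t) :
    ∑ t ∈ Z, (m t - 1) + Z.card = ∑ t ∈ Z, m t := by
  rw [Finset.card_eq_sum_ones, ← Finset.sum_add_distrib]
  refine Finset.sum_congr rfl fun t ht => ?_
  have := h t ht
  omega

end NodD

open NodD

/-- The dimension is at most the expected one. -/
theorem hT_nod {τ : Type*} [Fintype τ] {s : τ → ℝ} (hs : Function.Injective s) {N : ℕ}
    {m : τ → ℕ} (h : Std N m) (hK : ∑ t, m t + 4 ≤ 3 * N ∨ N = 1) :
    2 * hT N m (npt s) + ∑ t, m t * (m t + 1) ≤ N * (N + 1) := by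
  classical
  have hq : Function.Injective (npt s) := npt_injective hs
  induction N using Nat.strong_induction_on generalizing m with
  | _ N ih =>
    rcases Nat.lt_or_ge (Finset.univ.filter (fun t => m t ≠ 0)).card 3 with h3 | h3
    · apply hT_two hq N m _ (Nat.le_of_lt_succ h3)
      · intro t ht
        by_contra hcon
        apply ht
        rw [Finset.mem_filter]
        exact ⟨Finset.mem_univ t, hcon⟩
      · have := h.1 _ (show (Finset.univ.filter (fun t => m t ≠ 0)).card ≤ 3 by omega)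
        omega
    · obtain ⟨hN, hstd⟩ := h.sub h3
      have hK' : ∑ t, m t + 4 ≤ 3 * N := by omega
      set Z := Finset.univ.filter (fun t => m t ≠ 0) with hZ
      have hZm : ∀ t ∈ Z, 1 ≤ m t := by
        intro t ht
        rw [hZ, Finset.mem_filter] at ht
        omega
      have hsumZ : ∀ g : ℕ → ℕ, g 0 = 0 → ∑ t, g (m t) = ∑ t ∈ Z, g (m t) := by
        intro g hg
        symm
        apply Finset.sum_subset (Finset.subset_univ _)
        intro t _ ht
        have : m t = 0 := by
          by_contra hcon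
          apply ht
          rw [hZ, Finset.mem_filter]
          exact ⟨Finset.mem_univ t, hcon⟩
        rw [this, hg]
      have hs1 : ∑ t, (m t - 1) = ∑ t ∈ Z, (m t - 1) := hsumZ (fun x => x - 1) rfl
      have hs2 : ∑ t, m t = ∑ t ∈ Z, m t := hsumZ (fun x => x) rfl
      have hs3 := card_eq_sum Z m hZm
      have hK2 : ∑ t, (m t - 1) + 4 ≤ 3 * (N - 3) ∨ N - 3 = 1 := by
        rcases Nat.lt_or_ge (N - 3) 2 with h2 | h2
        · right; omega
        · left
          rcases Nat.lt_or_ge Z.card 9 with h9 | h9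
          · have h10 : ∑ t ∈ Z, (m t - 1) + 1 ≤ 3 * (N - 4) :=
              sum_eight Z (by omega) (fun t => m t - 1) (N - 4) (by omega) (fun U hU => by
                have h11 := hstd.1 U hU
                change ∑ t ∈ U, (m t - 1) ≤ N - 4
                change ∑ t ∈ U, (m t - 1) + 1 ≤ N - 3 at h11
                omega)
            rw [hs1]
            omega
          · omega
      have h1 := ih (N - 3) (by omega) hstd hK2
      have h2 := h.2
      have h4 := finrank_nod hs (N := N) (m := m) (by omega)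
      have h5 := finrank_nod_ker (s := s) (N := N) m
      have h6 := hT_le_nod s N m
      rw [sum_sub_one m]
      obtain ⟨x, hx⟩ : ∃ x, N = x + 4 := ⟨N - 4, by omega⟩
      subst hx
      rw [show x + 4 - 3 = x + 1 by omega] at h1 h5
      have h9 : x + 4 - 1 = x + 3 := rfl
      rw [h9] at h4
      nlinarith

/-- Small multiples of the anticanonical class. -/
theorem hT_small {ν : ℕ} {s : Fin 9 → ℝ} (h : Tors ν s) {j : ℕ} (hj : j < ν) :
    hT (3 * j + 1) (fun _ => j) (npt s) ≤ 1 := by
  induction j with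
  | zero =>
    have h1 := hT_nod (N := 1) (m := fun _ : Fin 9 => 0) h.inj ⟨by
      intro U _
      simp, by simp⟩ (Or.inr rfl)
    simp only [zero_add, mul_one, Finset.sum_const_zero, add_zero, Nat.mul_zero] at h1 ⊢
    omega
  | succ j ih =>
    have h1 := ih (by omega)
    have hsum : ∑ _t : Fin 9, (j + 1) = 3 * (3 * (j + 1) + 1 - 1) := by
      rw [Finset.sum_const, Finset.card_univ, Fintype.card_fin, smul_eq_mul]
      omega
    have hv : nv (lin s (fun _ => j + 1)) ≠ 0 := by
      intro h2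
      rcases h.only (fun _ => j + 1) (fun _ => hj.le) h2 with h3 | h3
      · exact absurd (h3 0) (Nat.succ_ne_zero j)
      · exact absurd (h3 0) hj.ne
    have hmap : (Lsys (3 * (j + 1) + 1) (fun _ => j + 1) (npt s)).map nod.toLinearMap = ⊥ := by
      rw [eq_bot_iff]
      rintro _ ⟨F, hF, rfl⟩
      rw [Submodule.mem_bot]
      exact nod_eq_zero h.inj hsum hv hF
    have h2 := hT_le_nod s (3 * (j + 1) + 1) (fun _ : Fin 9 => j + 1)
    rw [hmap, finrank_bot, zero_add] at h2
    have h3 := finrank_nod_ker (s := s) (N := 3 * (j + 1) + 1) (fun _ : Fin 9 => j + 1)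
    have h4 : 3 * (j + 1) + 1 - 3 = 3 * j + 1 := by omega
    rw [h4] at h3
    simp only [Nat.add_sub_cancel] at h3
    exact h2.trans (h3.trans h1)

end Pool.MP_70e04f_ag.Hal
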