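import Pool.Agent.Lib_MP_70e04f_hal.NodD

/-!
# The Halphen pencil has dimension two (piece NODE)

PAPER PROOF. Let `m' t = ν` for `t ≠ 8` and `m' 8 = ν - 1`. By `hT_ge`
`2 hT (3 ν + 1) m' ≥ (3 ν + 1)(3 ν + 2) - 8 ν (ν + 1) - (ν - 1) ν = 2 ν + 2`. Let
`q = npt s 8 = (x, y)`, `e = s 8`, and `Λ F i = coeff (mon i (ν - 1 - i)) (shift q F)` for
`i < ν` (a linear map `Lsys (3 ν + 1) m' → (Fin ν → ℝ)`). By `mem_ker_pow_iff`
(`Lib_MP_70e04f_ag/Poly.lean`) its kernel is contained in `Lsys (3 ν + 1) ν` (the coefficients of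
degree `< ν - 1` of `shift q F` vanish already). So it is enough to prove that the rank of `Λ` is
at most `ν - 1`, and for this that its image is in the kernel of the functional
`v ↦ ∑ i, v i * (2 e) ^ i * (3 e ^ 2 + 1) ^ (ν - 1 - i)`, which is not zero (coefficient of `v 0`).

(1) `(X - C e) ^ ν ∣ nod F` for `F ∈ Lsys (3 ν + 1) m'`: by `lin_dvd_nod`, `natDegree_nod_le`
`nod F = lin s m' * Q` with `natDegree Q ≤ 1`. By `Tors.full` the number
`R = aeval I (lin s ν) = aeval I (lin s m') * (I - e)` is real (and not zero, `aeval_lin_ne`), and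
`aeval I (nod F) = aeval I (lin s m') * Q (I)` is real, so `Q (I) / (I - e)` is real:
`Q = a X + b`, `a I + b = r (I - e)` with `r` real, so `a = r`, `b = - r e` and
`Q = r (X - C e)`; and `(X - C e) ^ ν ∣ lin s m' * (X - C e)`.

(2) `nod F = ∑ (a, b), coeff (mon a b) (shift q F) * u ^ a * v ^ b` with
`u = X ^ 2 - C e ^ 2 = (X - C e) (X + C e)` and
`v = X (X ^ 2 + 1) - C (e (e ^ 2 + 1)) = (X - C e) (X ^ 2 + C e X + C e ^ 2 + 1)`
(`nod F = aeval ![u, v] (shift q F)`: compare the two algebra homomorphisms on the variables;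
`MvPolynomial.aeval_eq_sum` or `as_sum`). The terms with `a + b < ν - 1` vanish, the ones with
`a + b ≥ ν` are divisible by `(X - C e) ^ ν`, so (cancel `(X - C e) ^ (ν - 1)`) `X - C e` divides
`∑ i < ν, Λ F i * (X + C e) ^ i * (X ^ 2 + C e X + C e ^ 2 + 1) ^ (ν - 1 - i)`; evaluate at `e`.
-/

namespace Pool.MP_70e04f_ag.Hal

open MvPolynomial Pool.MP_70e04f_ag.Hex Pool.MP_70e04f_ag.Add Pool.MP_70e04f_ag.Nine

/-- The multiplicities, one less at the ninth point. -/
def mE (ν : ℕ) : Fin 9 → ℕ := fun t => if t = 8 then ν - 1 else ν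

lemma mE_cast (n : ℕ) (i : Fin 8) : mE (n + 1) i.castSucc = n + 1 := by
  unfold mE
  rw [if_neg]
  intro h
  have h1 := congrArg Fin.val h
  have h2 : i.castSucc.val = i.val := rfl
  have h3 : ((8 : Fin 9) : ℕ) = 8 := rfl
  have h4 := i.2
  omega

lemma mE_last (n : ℕ) : mE (n + 1) (Fin.last 8) = n := by
  unfold mE
  rw [if_pos (show (Fin.last 8 : Fin 9) = 8 from rfl)]
  rfl

lemma sum_mE_sq (n : ℕ) :
    ∑ t, mE (n + 1) t * (mE (n + 1) t + 1) = 8 * ((n + 1) * (n + 2)) + n * (n + 1) := by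
  rw [Fin.sum_univ_castSucc, mE_last]
  simp only [mE_cast]
  rw [Finset.sum_const, Finset.card_univ, Fintype.card_fin, smul_eq_mul]

lemma sum_mE (n : ℕ) : ∑ t, mE (n + 1) t = 9 * n + 8 := by
  rw [Fin.sum_univ_castSucc, mE_last]
  simp only [mE_cast]
  rw [Finset.sum_const, Finset.card_univ, Fintype.card_fin, smul_eq_mul]
  ring

lemma lin_mE (n : ℕ) (s : Fin 9 → ℝ) :
    lin s (mE (n + 1)) * (Polynomial.X - Polynomial.C (s 8)) = lin s (fun _ => n + 1) := by
  unfold lin
  rw [Fin.prod_univ_castSucc, Fin.prod_univ_castSucc (n := 8)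
    (f := fun t => (Polynomial.X - Polynomial.C (s t)) ^ (n + 1)), mE_last]
  simp only [mE_cast]
  have h8 : (Fin.last 8 : Fin 9) = 8 := rfl
  rw [h8, pow_succ (Polynomial.X - Polynomial.C (s 8)), mul_assoc]

/-- Step one. -/
lemma pow_dvd_nod {n : ℕ} {s : Fin 9 → ℝ} (h : Tors (n + 1) s) {F : MvPolynomial (Fin 2) ℝ}
    (hF : F ∈ Lsys (3 * (n + 1) + 1) (mE (n + 1)) (npt s)) :
    (Polynomial.X - Polynomial.C (s 8)) ^ (n + 1) ∣ nod F := by
  obtain ⟨Q, hQ⟩ := lin_dvd_nod h.inj hF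
  by_cases h0 : nod F = 0
  · rw [h0]; exact dvd_zero _
  have hQ0 : Q ≠ 0 := by
    rintro rfl
    exact h0 (by rw [hQ, mul_zero])
  have hd : Q.natDegree ≤ 1 := by
    have h1 : (nod F).natDegree = (lin s (mE (n + 1))).natDegree + Q.natDegree := by
      rw [hQ, (lin_monic s _).natDegree_mul' hQ0]
    rw [natDegree_lin, sum_mE] at h1
    have h2 := natDegree_nod_le F
    have h3 : F.totalDegree ≤ 3 * (n + 1) := mem_range_tri.1 hF.1
    omega
  obtain ⟨a, b, hab⟩ : ∃ a b : ℝ, Q = Polynomial.C a * Polynomial.X + Polynomial.C b :=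
    ⟨_, _, Polynomial.eq_X_add_C_of_natDegree_le_one hd⟩
  obtain ⟨L, hL⟩ : ∃ L, Polynomial.aeval Complex.I (lin s (mE (n + 1))) = L := ⟨_, rfl⟩
  have hL0 : L ≠ 0 := by
    rw [← hL]
    exact aeval_lin_ne s _
  have h1 : (L * (Complex.I - (s 8 : ℂ))).im = 0 := by
    have h2 := h.full
    rw [← lin_mE] at h2
    unfold nv at h2
    rw [map_mul, map_sub, Polynomial.aeval_X, Polynomial.aeval_C, hL] at h2
    exact h2
  have h2 : (L * ((a : ℂ) * Complex.I + (b : ℂ))).im = 0 := by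
    have h3 := nv_nod F
    rw [hQ, hab] at h3
    unfold nv at h3
    rw [map_mul, map_add, map_mul, Polynomial.aeval_X, Polynomial.aeval_C, Polynomial.aeval_C,
      hL] at h3
    exact h3
  have h1' : L.re - L.im * s 8 = 0 := by
    have := h1
    simp [Complex.mul_im] at this
    linarith
  have h2' : L.re * a + L.im * b = 0 := by
    have := h2
    simp [Complex.mul_im] at this
    linarith
  have h3 : L.im ≠ 0 := by
    intro h4
    rw [h4] at h1'
    apply hL0
    apply Complex.ext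
    · rw [Complex.zero_re]; linarith
    · rw [Complex.zero_im]; exact h4
  have h4 : b = - a * s 8 := by
    have h5 : L.re = L.im * s 8 := by linarith
    rw [h5] at h2'
    have h6 : L.im * (s 8 * a + b) = 0 := by linarith
    rcases mul_eq_zero.1 h6 with h7 | h7
    · exact absurd h7 h3
    · linarith
  have h5 : nod F = Polynomial.C a * lin s (fun _ => n + 1) := by
    rw [hQ, hab, h4, ← lin_mE, Polynomial.C_mul, Polynomial.C_neg]
    ring
  rw [h5]
  apply Dvd.dvd.mul_left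
  unfold lin
  exact Finset.dvd_prod_of_mem (fun t => (Polynomial.X - Polynomial.C (s t)) ^ (n + 1))
    (Finset.mem_univ (8 : Fin 9))

/-- The leading form of a substitution. -/
lemma aeval_split (n : ℕ) (p u v : Polynomial ℝ) (G : MvPolynomial (Fin 2) ℝ)
    (hG : ∀ q ∈ tri n, coeff (mon q.1 q.2) G = 0) :
    p ^ (n + 1) ∣ aeval ![p * u, p * v] G - p ^ n * ∑ i ∈ Finset.range (n + 1),
      Polynomial.C (coeff (mon i (n - i)) G) * (u ^ i * v ^ (n - i)) := by
  classical
  have hA : ∑ i ∈ Finset.range (n + 1),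
      Polynomial.C (coeff (mon i (n - i)) G) * (u ^ i * v ^ (n - i)) =
      ∑ d ∈ G.support.filter (fun d => d 0 + d 1 = n),
        Polynomial.C (coeff d G) * (u ^ d 0 * v ^ d 1) := by
    have h1 : ∑ i ∈ Finset.range (n + 1),
        Polynomial.C (coeff (mon i (n - i)) G) * (u ^ i * v ^ (n - i)) =
        ∑ d ∈ (Finset.range (n + 1)).image (fun i => mon i (n - i)),
          Polynomial.C (coeff d G) * (u ^ d 0 * v ^ d 1) := by
      rw [Finset.sum_image]
      · refine Finset.sum_congr rfl fun i _ => ?_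
        rw [mon_zero', mon_one']
      · intro i _ j _ hij
        exact (mon_inj.1 hij).1
    rw [h1]
    symm
    apply Finset.sum_subset
    · intro d hd
      rw [Finset.mem_filter] at hd
      rw [Finset.mem_image]
      refine ⟨d 0, ?_, ?_⟩
      · rw [Finset.mem_range]; omega
      · rw [show n - d 0 = d 1 by omega]
        exact mon_eta d
    · intro d hd hd2
      rw [Finset.mem_image] at hd
      obtain ⟨i, hi, rfl⟩ := hd
      rw [Finset.mem_range] at hi
      have h3 : coeff (mon i (n - i)) G = 0 := by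
        by_contra h4
        apply hd2
        rw [Finset.mem_filter, mon_zero', mon_one']
        exact ⟨mem_support_iff.2 h4, by omega⟩
      rw [h3, Polynomial.C_0, zero_mul]
  rw [hA, Finset.sum_filter, Finset.mul_sum, aeval_def, eval₂_eq', ← Finset.sum_sub_distrib]
  apply Finset.dvd_sum
  intro d hd
  rw [Fin.prod_univ_two]
  have e0 : (![p * u, p * v] : Fin 2 → Polynomial ℝ) 0 = p * u := rfl
  have e1 : (![p * u, p * v] : Fin 2 → Polynomial ℝ) 1 = p * v := rfl
  rw [e0, e1, Polynomial.algebraMap_eq]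
  by_cases hdn : d 0 + d 1 = n
  · rw [if_pos hdn]
    have : Polynomial.C (coeff d G) * ((p * u) ^ d 0 * (p * v) ^ d 1) =
        p ^ n * (Polynomial.C (coeff d G) * (u ^ d 0 * v ^ d 1)) := by
      rw [← hdn, pow_add, mul_pow, mul_pow]
      ring
    rw [this, sub_self]
    exact dvd_zero _
  · rw [if_neg hdn, mul_zero, sub_zero]
    have h2 : n < d 0 + d 1 := by
      by_contra h3
      have h4 := hG (d 0, d 1) (by rw [mem_tri]; show d 0 + d 1 < n; omega)
      have h5 : coeff (mon (d 0) (d 1)) G = 0 := h4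
      rw [mon_eta] at h5
      exact (mem_support_iff.1 hd) h5
    have : Polynomial.C (coeff d G) * ((p * u) ^ d 0 * (p * v) ^ d 1) =
        p ^ (d 0 + d 1) * (Polynomial.C (coeff d G) * (u ^ d 0 * v ^ d 1)) := by
      rw [pow_add, mul_pow, mul_pow]
      ring
    rw [this]
    exact Dvd.dvd.mul_right (pow_dvd_pow p h2) _

/-- Step two. -/
lemma lead_form {n : ℕ} {e : ℝ} {F : MvPolynomial (Fin 2) ℝ}
    (hF : F ∈ pt ![e ^ 2 + 1, e * (e ^ 2 + 1)] ^ n)
    (hd : (Polynomial.X - Polynomial.C e) ^ (n + 1) ∣ nod F) :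
    ∑ i ∈ Finset.range (n + 1), coeff (mon i (n - i))
      (shift ![e ^ 2 + 1, e * (e ^ 2 + 1)] F) * ((2 * e) ^ i * (3 * e ^ 2 + 1) ^ (n - i)) = 0 := by
  have h1 := (mem_ker_pow_iff _ n F).1 hF
  obtain ⟨p, hp⟩ : ∃ p : Polynomial ℝ, Polynomial.X - Polynomial.C e = p := ⟨_, rfl⟩
  obtain ⟨u, hu⟩ : ∃ u : Polynomial ℝ, Polynomial.X + Polynomial.C e = u := ⟨_, rfl⟩
  obtain ⟨v, hv⟩ : ∃ v : Polynomial ℝ, Polynomial.X ^ 2 + Polynomial.C e * Polynomial.X +
    Polynomial.C e ^ 2 + 1 = v := ⟨_, rfl⟩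
  have h2 := aeval_split n p u v _ h1
  have h3 : aeval ![p * u, p * v] (shift ![e ^ 2 + 1, e * (e ^ 2 + 1)] F) = nod F := by
    have : (aeval ![p * u, p * v]).comp (shift ![e ^ 2 + 1, e * (e ^ 2 + 1)]) = nod := by
      apply MvPolynomial.algHom_ext
      intro i
      fin_cases i
      · simp [shift, nod, ← hp, ← hu]
        ring
      · simp [shift, nod, ← hp, ← hv]
        ring
    exact congrArg (fun ψ : MvPolynomial (Fin 2) ℝ →ₐ[ℝ] Polynomial ℝ => ψ F) this
  rw [h3] at h2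
  rw [hp] at hd
  have h4 := (dvd_sub_right hd).1 h2
  have hp0 : p ≠ 0 := by
    rw [← hp]
    exact Polynomial.X_sub_C_ne_zero e
  rw [pow_succ] at h4
  have h5 := (mul_dvd_mul_iff_left (pow_ne_zero n hp0)).1 h4
  rw [← hp, Polynomial.dvd_iff_isRoot, Polynomial.IsRoot.def, Polynomial.eval_finset_sum] at h5
  rw [← h5]
  refine Finset.sum_congr rfl fun i _ => ?_
  rw [Polynomial.eval_mul, Polynomial.eval_C, Polynomial.eval_mul, Polynomial.eval_pow,
    Polynomial.eval_pow, ← hu, ← hv]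
  congr 2
  · congr 1
    simp
    ring
  · congr 1
    simp
    ring

/-- The Halphen pencil. -/
theorem two_le_hT {ν : ℕ} {s : Fin 9 → ℝ} (h : Tors ν s) (hν : 1 ≤ ν) :
    2 ≤ hT (3 * ν + 1) (fun _ => ν) (npt s) := by
  classical
  obtain ⟨n, rfl⟩ : ∃ n, ν = n + 1 := ⟨ν - 1, by omega⟩
  have h1 := hT_ge (3 * (n + 1) + 1) (mE (n + 1)) (npt s)
  rw [sum_mE_sq] at h1
  have h2 : n + 2 ≤ hT (3 * (n + 1) + 1) (mE (n + 1)) (npt s) := by nlinarith
  let Λ0 : MvPolynomial (Fin 2) ℝ →ₗ[ℝ] (Fin (n + 1) → ℝ) :=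
    LinearMap.pi fun i => (MvPolynomial.lcoeff ℝ (mon i.1 (n - i.1))).comp
      (shift (npt s 8)).toLinearMap
  let Λ := Λ0.domRestrict (Lsys (3 * (n + 1) + 1) (mE (n + 1)) (npt s))
  let φ : (Fin (n + 1) → ℝ) →ₗ[ℝ] ℝ :=
    Fintype.linearCombination ℝ (fun i : Fin (n + 1) =>
      ((2 * s 8) ^ i.1 * (3 * s 8 ^ 2 + 1) ^ (n - i.1)))
  have hφ : φ ≠ 0 := by
    intro h3
    have h4 : φ (Pi.single 0 1) = 0 := by rw [h3]; rfl
    rw [Fintype.linearCombination_apply_single] at h4
    rw [one_smul] at h4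
    simp at h4
    have h5 : (0 : ℝ) < 3 * s 8 ^ 2 + 1 := by positivity
    exact absurd h4.1 h5.ne'
  have hfin : Module.Finite ℝ ↥(Lsys (3 * (n + 1) + 1) (mE (n + 1)) (npt s)) :=
    Submodule.finiteDimensional_inf_left _ _
  have hfin2 : Module.Finite ℝ ↥(Lsys (3 * (n + 1) + 1) (fun _ : Fin 9 => n + 1) (npt s)) :=
    Submodule.finiteDimensional_inf_left _ _
  have hle : LinearMap.range Λ ≤ LinearMap.ker φ := by
    rintro _ ⟨F, rfl⟩
    rw [LinearMap.mem_ker]
    have hF8 : (F.1 : MvPolynomial (Fin 2) ℝ) ∈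
        pt ![s 8 ^ 2 + 1, s 8 * (s 8 ^ 2 + 1)] ^ n := by
      have := mem_vanish.1 F.2.2 8
      exact this
    have h3 := lead_form hF8 (pow_dvd_nod h F.2)
    rw [← Fin.sum_univ_eq_sum_range (fun i => coeff (mon i (n - i))
      (shift ![s 8 ^ 2 + 1, s 8 * (s 8 ^ 2 + 1)] F.1) *
        ((2 * s 8) ^ i * (3 * s 8 ^ 2 + 1) ^ (n - i))) (n + 1)] at h3
    exact h3
  have hr : Module.finrank ℝ (LinearMap.range Λ) ≤ n := by
    have h3 := Submodule.finrank_mono hle
    have h4 := LinearMap.finrank_range_add_finrank_ker φ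
    rw [Module.finrank_fintype_fun_eq_card, Fintype.card_fin] at h4
    have h5 : Module.finrank ℝ (LinearMap.range φ) ≠ 0 := by
      intro h6
      rw [Submodule.finrank_eq_zero, LinearMap.range_eq_bot] at h6
      exact hφ h6
    omega
  have hk := LinearMap.finrank_range_add_finrank_ker Λ
  have hk2 : 2 ≤ Module.finrank ℝ (LinearMap.ker Λ) := by
    unfold hT at h2
    omega
  refine hk2.trans ?_
  unfold hT
  apply LinearMap.finrank_le_finrank_of_injective
    (f := (((Lsys (3 * (n + 1) + 1) (mE (n + 1)) (npt s)).subtype).domRestrict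
      (LinearMap.ker Λ)).codRestrict
      (Lsys (3 * (n + 1) + 1) (fun _ : Fin 9 => n + 1) (npt s)) (fun x => ⟨x.1.2.1, by
        change (x.1.1 : MvPolynomial (Fin 2) ℝ) ∈ vanish (fun _ : Fin 9 => n + 1) (npt s)
        rw [mem_vanish]
        intro t
        by_cases ht : t = 8
        · subst ht
          rw [mem_ker_pow_iff]
          rintro ⟨a, b⟩ hab
          rw [mem_tri] at hab
          change a + b < n + 1 at hab
          change coeff (mon a b) _ = 0
          by_cases hab2 : a + b < n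
          · have h3 := mem_vanish.1 x.1.2.2 8
            rw [mem_ker_pow_iff] at h3
            exact h3 (a, b) (by rw [mem_tri]; exact hab2)
          · have h3 : Λ x.1 = 0 := x.2
            have h4 := congrFun h3 ⟨a, by omega⟩
            have h5 : b = n - a := by omega
            rw [h5]
            exact h4
        · have h3 := mem_vanish.1 x.1.2.2 t
          have h4 : mE (n + 1) t = n + 1 := if_neg ht
          rw [h4] at h3
          exact h3⟩))
  intro x y hxy
  have := congrArg Subtype.val hxy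
  exact Subtype.ext (Subtype.ext this)

end Pool.MP_70e04f_ag.Hal
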